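import Mathlib

set_option autoImplicit false
set_option maxRecDepth 100000

/-!
A finite computation: two systems of six 2-sets with the same numbers of split matchings.
-/

namespace Pool.Agent.SSK

def ex1 {k : ℕ} (a : Fin k × Bool) : ℕ := a.1

def ex2 {k : ℕ} (a : Fin k × Bool) : ℕ :=
  if (a.1 : ℕ) ≤ 1 then (if a.2 then 1 else 0) else a.1

abbrev Q3 (t : Fin 3 × Bool → ℕ) (S : Fin 3 × Bool → Bool) (psi : Fin 3 × Bool → Fin 3) : Prop :=
  (∀ a, (psi a : ℕ) ≠ t a) ∧ ∀ a b, a ≠ b → psi a = psi b → S a ≠ S b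

theorem cnt3 (S : Fin 3 × Bool → Bool) :
    (Finset.univ.filter (fun psi => Q3 ex1 S psi)).card =
      (Finset.univ.filter (fun psi => Q3 ex2 S psi)).card := by
  revert S
  decide +kernel

end Pool.Agent.SSK
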