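import Pool.Agent.Lib_MP_72f673_lc.Count4Defs

set_option autoImplicit false
set_option maxRecDepth 100000

/-!
The finite computation.
-/

namespace Pool.Agent.SSK

theorem fast_tally : ∀ s0 s1 s2 s3 s4 s5 s6 s7 : Bool,
    fast (rows nbP (mk8 s0 s1 s2 s3 s4 s5 s6 s7)) [] =
      fast (rows nbQ (mk8 s0 s1 s2 s3 s4 s5 s6 s7)) [] := by
  decide +kernel

end Pool.Agent.SSK
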