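import Pool.Agent.Lib_MP_72f673_lc.DefsSigned

set_option autoImplicit false
set_option maxRecDepth 100000

/-!
A finite computation: two systems of eight 2-sets with the same numbers of even and of odd split
matchings.
-/

namespace Pool.Agent.SSK

/-- the two neighbours of a terminal, first system -/
def nbP : Term 4 → Bool → Fin 4
  | (0, _), x => if x then 3 else 2
  | (1, false), x => if x then 3 else 1
  | (1, true), x => if x then 3 else 0
  | (2, false), x => if x then 2 else 1
  | (2, true), x => if x then 1 else 0
  | (3, false), x => if x then 2 else 0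
  | (3, true), x => if x then 1 else 0

/-- the two neighbours of a terminal, second system -/
def nbQ : Term 4 → Bool → Fin 4
  | (0, _), x => if x then 3 else 2
  | (1, false), x => if x then 3 else 1
  | (1, true), x => if x then 2 else 1
  | (2, false), x => if x then 3 else 0
  | (2, true), x => if x then 1 else 0
  | (3, false), x => if x then 2 else 0
  | (3, true), x => if x then 1 else 0

abbrev good (S : Term 4 → Bool) (g : Term 4 → Fin 4) : Prop :=
  ∀ a b, a ≠ b → g a = g b → S a ≠ S b

def termList : List (Term 4) :=
  [(0, false), (0, true), (1, false), (1, true), (2, false), (2, true), (3, false), (3, true)]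

/-- position of the partner of `a` -/
def par (g : Term 4 → Fin 4) (a : Term 4) : ℕ :=
  match termList.find? (fun c => g c == g a && !(c == a)) with
  | some c => pos c
  | none => 0

def invg (S : Term 4 → Bool) (g : Term 4 → Fin 4) : ℕ :=
  (Finset.univ.filter (fun p : Term 4 × Term 4 => S p.1 = true ∧ S p.2 = true ∧
    pos p.1 < pos p.2 ∧ par g p.2 < par g p.1)).card

theorem par_eq (g : Term 4 → Fin 4) (a c : Term 4) (h1 : c ≠ a) (h2 : g c = g a)
    (h3 : ∀ d, d ≠ a → g d = g a → d = c) : par g a = pos c := by
  unfold par
  cases h : termList.find? (fun c => g c == g a && !(c == a)) with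
  | none =>
    exfalso
    rw [List.find?_eq_none] at h
    have hc : c ∈ termList := by
      obtain ⟨i, b⟩ := c
      fin_cases i <;> cases b <;> decide
    have := h c hc
    simp [h1, h2] at this
  | some d =>
    have hd := List.find?_some h
    simp only [Bool.and_eq_true, beq_iff_eq, Bool.not_eq_true', beq_eq_false_iff_ne] at hd
    rw [h3 d hd.2 hd.1]

def tally (nb : Term 4 → Bool → Fin 4) (S : Term 4 → Bool) : ℕ × ℕ :=
  ∑ β : Term 4 → Bool, if good S (fun a => nb a (β a)) then
    (if Even (invg S (fun a => nb a (β a))) then (1, 0) else (0, 1)) else (0, 0)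

/-! Evaluation with pruning. -/

def sOf (l : List (Bool × Fin 4)) (a : Term 4) : Bool := (l.getD (pos a) (false, 0)).1

def gOf (l : List (Bool × Fin 4)) (a : Term 4) : Fin 4 := (l.getD (pos a) (false, 0)).2

def leaf (l : List (Bool × Fin 4)) : ℕ × ℕ :=
  if Even (invg (sOf l) (gOf l)) then (1, 0) else (0, 1)

def flat : List (Bool × Fin 4 × Fin 4) → List (Bool × Fin 4) → ℕ × ℕ
  | [], l => if l.Nodup then leaf l else (0, 0)
  | (s, x, y) :: r, l => flat r (l ++ [(s, x)]) + flat r (l ++ [(s, y)])

def fast : List (Bool × Fin 4 × Fin 4) → List (Bool × Fin 4) → ℕ × ℕ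
  | [], l => leaf l
  | (s, x, y) :: r, l => (if (s, x) ∈ l then (0, 0) else fast r (l ++ [(s, x)])) +
      (if (s, y) ∈ l then (0, 0) else fast r (l ++ [(s, y)]))

theorem flat_zero (r : List (Bool × Fin 4 × Fin 4)) : ∀ l : List (Bool × Fin 4), ¬ l.Nodup →
    flat r l = (0, 0) := by
  induction r with
  | nil => intro l h; exact if_neg h
  | cons p r ih =>
    intro l h
    obtain ⟨s, x, y⟩ := p
    have h1 : ∀ z, ¬ (l ++ [z]).Nodup := fun z hz => h (List.Nodup.of_append_left hz)
    simp only [flat, ih _ (h1 _)]
    rfl

theorem fast_eq (r : List (Bool × Fin 4 × Fin 4)) : ∀ l : List (Bool × Fin 4), l.Nodup →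
    fast r l = flat r l := by
  induction r with
  | nil => intro l h; exact (if_pos h).symm
  | cons p r ih =>
    intro l h
    obtain ⟨s, x, y⟩ := p
    have key : ∀ z, (if z ∈ l then ((0, 0) : ℕ × ℕ) else fast r (l ++ [z])) =
        flat r (l ++ [z]) := by
      intro z
      by_cases hz : z ∈ l
      · rw [if_pos hz, flat_zero]
        intro h'
        rw [List.nodup_append] at h'
        exact h'.2.2 z hz z (by simp) rfl
      · rw [if_neg hz, ih]
        rw [List.nodup_append]
        refine ⟨h, by simp, ?_⟩
        intro u hu v hv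
        rw [List.mem_singleton] at hv
        rintro rfl
        exact hz (hv ▸ hu)
    simp only [fast, flat, key]

def row (nb : Term 4 → Bool → Fin 4) (S : Term 4 → Bool) (a : Term 4) : Bool × Fin 4 × Fin 4 :=
  (S a, nb a false, nb a true)

def rows (nb : Term 4 → Bool → Fin 4) (S : Term 4 → Bool) : List (Bool × Fin 4 × Fin 4) :=
  [row nb S (0, false), row nb S (0, true), row nb S (1, false), row nb S (1, true),
    row nb S (2, false), row nb S (2, true), row nb S (3, false), row nb S (3, true)]

/-- a function on the eight terminals from its values -/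
def mk8 {α : Type} (x0 x1 x2 x3 x4 x5 x6 x7 : α) : Term 4 → α
  | (0, false) => x0
  | (0, true) => x1
  | (1, false) => x2
  | (1, true) => x3
  | (2, false) => x4
  | (2, true) => x5
  | (3, false) => x6
  | (3, true) => x7

theorem mk8_eta {α : Type} (f : Term 4 → α) :
    mk8 (f (0, false)) (f (0, true)) (f (1, false)) (f (1, true)) (f (2, false)) (f (2, true))
      (f (3, false)) (f (3, true)) = f := by
  funext a
  obtain ⟨i, b⟩ := a
  fin_cases i <;> cases b <;> rfl


end Pool.Agent.SSK
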