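import Mathlib

set_option autoImplicit false

/-!
Linkages of `2 k` terminals in a graph, and source-sink counts.
-/

namespace Pool.Agent.SSK

/-- Names of the `2 k` terminals: `(i, false)` is `s_i` and `(i, true)` is `t_i`. -/
abbrev Term (k : ℕ) : Type := Fin k × Bool

/-- Weight of a path given as the list of its vertices. -/
def pathWeight {V : Type} (c : Sym2 V → ℕ) : List V → ℕ
  | [] => 0
  | [_] => 0
  | u :: v :: l => c s(u, v) + pathWeight c (v :: l)

/-- A linkage: the terminals `T a` are joined in pairs by pairwise vertex-disjoint paths of `G`.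
The terminal `T a` is joined to `T (mate a)` by the path `path a`, a list of distinct vertices in
which consecutive ones are adjacent; `path (mate a)` is the same path read backwards. -/
structure Linkage {V : Type} (G : SimpleGraph V) {k : ℕ} (T : Term k → V) where
  mate : Term k → Term k
  path : Term k → List V
  mate_ne : ∀ a, mate a ≠ a
  mate_mate : ∀ a, mate (mate a) = a
  chain : ∀ a, (path a).IsChain G.Adj
  nodup : ∀ a, (path a).Nodup
  head : ∀ a, (path a).head? = some (T a)
  last : ∀ a, (path a).getLast? = some (T (mate a))
  rev : ∀ a, path (mate a) = (path a).reverse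
  disj : ∀ a b, b ≠ a → b ≠ mate a → (path a).Disjoint (path b)

/-- Twice the weight of a linkage (each path is counted in both directions). -/
def Linkage.weight2 {V : Type} {G : SimpleGraph V} {k : ℕ} {T : Term k → V}
    (L : Linkage G T) (c : Sym2 V → ℕ) : ℕ :=
  ∑ a, pathWeight c (L.path a)

/-- The linkage joins every terminal of `S` to a terminal outside `S`, and conversely. -/
def Crosses {k : ℕ} (S : Finset (Term k)) (m : Term k → Term k) : Prop :=
  ∀ a, a ∈ S ↔ m a ∉ S

/-- An instance: a finite graph with edge weights and `2 k` distinct terminals. -/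
structure Inst (k : ℕ) where
  V : Type
  fin : Fintype V
  G : SimpleGraph V
  c : Sym2 V → ℕ
  T : Term k → V
  inj : Function.Injective T

/-- The source-sink count: the number of linkages of weight `W / 2` each of whose paths joins a
terminal in `S` (a source) to a terminal outside `S` (a sink). -/
noncomputable def sourceSink {k : ℕ} (X : Inst k) (S : Finset (Term k)) (W : ℕ) : ℕ :=
  Nat.card {L : Linkage X.G X.T // Crosses S L.mate ∧ L.weight2 X.c = W}

/-- The number of linkages of weight `W / 2` which join `s_i` to `t_i` for all `i < j`, the other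
`2 k - 2 j` terminals being joined arbitrarily. -/
noncomputable def prescribed {k : ℕ} (X : Inst k) (j W : ℕ) : ℕ :=
  Nat.card {L : Linkage X.G X.T //
    (∀ i : Fin k, (i : ℕ) < j → L.mate (i, false) = (i, true)) ∧ L.weight2 X.c = W}

/-- `2 ^ k` times the number of linkages with the first `j` pairs prescribed is a fixed linear
combination of the source-sink counts. -/
def LinearlyDetermined (k j : ℕ) : Prop :=
  ∃ lam : Finset (Term k) → ℤ, (∀ S, lam S = 1 ∨ lam S = -1) ∧ ∀ (X : Inst k) (W : ℕ),
    2 ^ k * (prescribed X j W : ℤ) = ∑ S, lam S * (sourceSink X S W : ℤ)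

/-- The source-sink counts determine whether there is a linkage with the first `j` pairs
prescribed. -/
def ExistenceDetermined (k j : ℕ) : Prop :=
  ∀ X Y : Inst k, (∀ S W, sourceSink X S W = sourceSink Y S W) →
    (∃ W, prescribed X j W ≠ 0) → ∃ W, prescribed Y j W ≠ 0

end Pool.Agent.SSK
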