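import Pool.Agent.Lib_MP_72f673_lc.Defs

set_option autoImplicit false

/-!
Signed source-sink counts.
-/

namespace Pool.Agent.SSK

/-- Position of a terminal in the order `s_1, t_1, s_2, t_2, ...`. -/
def pos {k : ℕ} (a : Term k) : ℕ := 2 * a.1 + a.2.toNat

/-- Number of inversions of the bijection `a ↦ m a` from `S` to its complement, that is, the number
of pairs `a, b` in `S` with `a` before `b` and `m b` before `m a`. -/
def inversions {k : ℕ} (S : Finset (Term k)) (m : Term k → Term k) : ℕ :=
  ((S ×ˢ S).filter (fun p => pos p.1 < pos p.2 ∧ pos (m p.2) < pos (m p.1))).card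

/-- The signed source-sink counts: the number of linkages of weight `W / 2` each of whose paths
joins a terminal in `S` to a terminal outside `S`, and whose bijection from `S` to the complement
has an even (`e = true`) or odd (`e = false`) number of inversions. -/
noncomputable def signedCount {k : ℕ} (X : Inst k) (S : Finset (Term k)) (e : Bool) (W : ℕ) : ℕ :=
  Nat.card {L : Linkage X.G X.T // Crosses S L.mate ∧ decide (Even (inversions S L.mate)) = e ∧
    L.weight2 X.c = W}

/-- A fixed multiple of the number of linkages with the first `j` pairs prescribed is a fixed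
integral linear combination of the signed source-sink counts. -/
def SignedLinearlyDetermined (k j : ℕ) : Prop :=
  ∃ N : ℤ, N ≠ 0 ∧ ∃ lam : Finset (Term k) → Bool → ℤ, ∀ (X : Inst k) (W : ℕ),
    N * (prescribed X j W : ℤ) = ∑ S, ∑ e, lam S e * (signedCount X S e W : ℤ)

/-- The signed source-sink counts determine whether there is a linkage with the first `j` pairs
prescribed. -/
def SignedExistenceDetermined (k j : ℕ) : Prop :=
  ∀ X Y : Inst k, (∀ S e W, signedCount X S e W = signedCount Y S e W) →
    (∃ W, prescribed X j W ≠ 0) → ∃ W, prescribed Y j W ≠ 0

end Pool.Agent.SSK
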