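import Pool.Agent.Lib_MP_72f673_lc.DenseLocal

set_option autoImplicit false

/-!
Counting neighbours of linkages of minimum weight.
-/

namespace Pool.Agent.DLK

open Finset Classical

theorem card_low {n : ℕ} (F : Finset (Fin n)) (t : ℕ) :
    (F.filter (fun x => (F.filter (fun y => y < x)).card < t)).card ≤ t := by
  have h : (F.filter (fun x => (F.filter (fun y => y < x)).card < t)).card ≤ (range t).card := by
    refine card_le_card_of_injOn (fun x => (F.filter (fun y => y < x)).card) ?_ ?_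
    · intro x hx
      have := (mem_filter.1 (mem_coe.1 hx)).2
      exact mem_coe.2 (mem_range.2 this)
    · have key : ∀ x y : Fin n, x ∈ F → x < y →
          (F.filter (fun z => z < x)).card < (F.filter (fun z => z < y)).card := by
        intro x y hx hxy
        apply card_lt_card
        rw [ssubset_iff_of_subset]
        · exact ⟨x, mem_filter.2 ⟨hx, hxy⟩, fun h => lt_irrefl _ (mem_filter.1 h).2⟩
        · intro z hz
          have := mem_filter.1 hz
          exact mem_filter.2 ⟨this.1, this.2.trans hxy⟩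
      intro x hx y hy hxy
      have hx' := (mem_filter.1 (mem_coe.1 hx)).1
      have hy' := (mem_filter.1 (mem_coe.1 hy)).1
      rcases lt_trichotomy x y with h | h | h
      · exact absurd hxy (key x y hx' h).ne
      · exact h
      · exact absurd hxy (key y x hy' h).ne'
  simpa using h

theorem card_window {n : ℕ} (F : Finset (Fin n)) (D : ℕ)
    (h : ∀ x ∈ F, ∀ y ∈ F, x < y → (y : ℕ) - x ≤ D) : F.card ≤ D + 1 := by
  rcases F.eq_empty_or_nonempty with rfl | hne
  · simp
  · set a := F.min' hne with ha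
    have haF : a ∈ F := min'_mem _ _
    have h1 : (F.image (fun x : Fin n => (x : ℕ))).card = F.card :=
      card_image_of_injective _ Fin.val_injective
    have h2 : F.image (fun x : Fin n => (x : ℕ)) ⊆ Icc (a : ℕ) (a + D) := by
      intro y hy
      obtain ⟨x, hx, rfl⟩ := mem_image.1 hy
      have h3 : a ≤ x := min'_le _ _ hx
      have h3' : (a : ℕ) ≤ x := h3
      rw [mem_Icc]
      refine ⟨h3', ?_⟩
      rcases h3.eq_or_lt with h4 | h4
      · rw [h4]; omega
      · have := h a haF x hx h4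
        omega
    have h3 := card_le_card h2
    rw [h1, Nat.card_Icc] at h3
    omega

theorem card_within {n : ℕ} (F : Finset (Fin n)) (x : Fin n) (ρ : ℕ) (hx : x ∉ F)
    (h : ∀ y ∈ F, x < y → (y : ℕ) - x ≤ ρ) (h' : ∀ y ∈ F, y < x → (x : ℕ) - y ≤ ρ) :
    F.card ≤ 2 * ρ := by
  have h1 : (F.image (fun x : Fin n => (x : ℕ))).card = F.card :=
    card_image_of_injective _ Fin.val_injective
  have h2 : F.image (fun x : Fin n => (x : ℕ)) ⊆ (Icc ((x : ℕ) - ρ) (x + ρ)).erase x := by
    intro y hy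
    obtain ⟨z, hz, rfl⟩ := mem_image.1 hy
    have hne : z ≠ x := fun e => hx (e ▸ hz)
    rw [mem_erase, mem_Icc]
    refine ⟨fun e => hne (Fin.ext e), ?_⟩
    rcases lt_or_gt_of_ne hne with h4 | h4
    · have h5 := h' z hz h4
      have h6 : (z : ℕ) < x := h4
      omega
    · have h5 := h z hz h4
      have h6 : (x : ℕ) < z := h4
      omega
  have h3 := card_le_card h2
  rw [h1, card_erase_of_mem (by rw [mem_Icc]; omega), Nat.card_Icc] at h3
  omega

theorem exists_far {n : ℕ} (F : Finset (Fin n)) (m : Fin n) (t : ℕ) (ht : 0 < t)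
    (hF : ∀ x ∈ F, x < m) (hcard : t ≤ F.card) : ∃ x ∈ F, (x : ℕ) + t ≤ m := by
  have hne : F.Nonempty := card_pos.1 (by omega)
  refine ⟨F.min' hne, min'_mem _ _, ?_⟩
  have h1 : (F.image (fun x : Fin n => (x : ℕ))).card = F.card :=
    card_image_of_injective _ Fin.val_injective
  have h2 : F.image (fun x : Fin n => (x : ℕ)) ⊆ Ico ((F.min' hne : Fin n) : ℕ) m := by
    intro y hy
    obtain ⟨x, hx, rfl⟩ := mem_image.1 hy
    rw [mem_Ico]
    have h3 : F.min' hne ≤ x := min'_le _ _ hx
    exact ⟨h3, hF x hx⟩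
  have h3 := card_le_card h2
  rw [h1, Nat.card_Ico] at h3
  omega

/-- few edges between two paths -/
theorem card_cross {a b : ℕ} (E : Finset (Fin a × Fin b)) (ρ : ℕ) (hρ : 1 ≤ ρ)
    (hd : ∀ (x m y : Fin a) (l z l' : Fin b), x < m → m < y → l < z → z < l' → (x, z) ∈ E →
      (y, z) ∈ E → (m, l) ∈ E → (m, l') ∈ E → ((y : ℕ) - x) + ((l' : ℕ) - l) ≤ 4 * ρ) :
    E.card ≤ 2 * a + (4 * ρ - 1) * b := by
  set R1 := E.filter (fun p => ∀ q ∈ E, q.1 = p.1 → p.2 ≤ q.2) with hR1
  set R2 := E.filter (fun p => ∀ q ∈ E, q.1 = p.1 → q.2 ≤ p.2) with hR2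
  set C2 := E.filter (fun p => ∀ q ∈ E, q.2 = p.2 → q.1 ≤ p.1) with hC2
  set C1 := E.filter (fun p => (univ.filter (fun x => (x, p.2) ∈ E ∧ x < p.1)).card < 4 * ρ - 2)
    with hC1
  have c1 : R1.card ≤ a := by
    have : R1.card ≤ (univ : Finset (Fin a)).card := by
      refine card_le_card_of_injOn Prod.fst (fun _ _ => mem_coe.2 (mem_univ _)) ?_
      intro p hp q hq hpq
      have hp' := mem_filter.1 (mem_coe.1 hp)
      have hq' := mem_filter.1 (mem_coe.1 hq)
      exact Prod.ext hpq (le_antisymm (hp'.2 q hq'.1 hpq.symm) (hq'.2 p hp'.1 hpq))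
    simpa using this
  have c2 : R2.card ≤ a := by
    have : R2.card ≤ (univ : Finset (Fin a)).card := by
      refine card_le_card_of_injOn Prod.fst (fun _ _ => mem_coe.2 (mem_univ _)) ?_
      intro p hp q hq hpq
      have hp' := mem_filter.1 (mem_coe.1 hp)
      have hq' := mem_filter.1 (mem_coe.1 hq)
      exact Prod.ext hpq (le_antisymm (hq'.2 p hp'.1 hpq) (hp'.2 q hq'.1 hpq.symm))
    simpa using this
  have c3 : C2.card ≤ b := by
    have : C2.card ≤ (univ : Finset (Fin b)).card := by
      refine card_le_card_of_injOn Prod.snd (fun _ _ => mem_coe.2 (mem_univ _)) ?_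
      intro p hp q hq hpq
      have hp' := mem_filter.1 (mem_coe.1 hp)
      have hq' := mem_filter.1 (mem_coe.1 hq)
      exact Prod.ext (le_antisymm (hq'.2 p hp'.1 hpq) (hp'.2 q hq'.1 hpq.symm)) hpq
    simpa using this
  have c4 : C1.card ≤ (4 * ρ - 2) * b := by
    have h1 : C1.card ≤ (4 * ρ - 2) * (C1.image Prod.snd).card := by
      refine card_le_mul_card_image C1 (4 * ρ - 2) ?_
      intro z _
      set F : Finset (Fin a) := univ.filter (fun x => (x, z) ∈ E) with hF
      have h2 : (C1.filter (fun p => p.2 = z)).card ≤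
          (F.filter (fun x => (F.filter (fun y => y < x)).card < 4 * ρ - 2)).card := by
        refine card_le_card_of_injOn Prod.fst ?_ ?_
        · intro p hp
          have hp1 := mem_filter.1 (mem_coe.1 hp)
          have hp2 := mem_filter.1 hp1.1
          have hz : p.2 = z := hp1.2
          refine mem_coe.2 (mem_filter.2 ⟨?_, ?_⟩)
          · rw [hF, mem_filter]
            refine ⟨mem_univ _, ?_⟩
            rw [← hz]
            exact hp2.1
          · have h3 := hp2.2
            rw [hF, filter_filter, ← hz]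
            exact h3
        · intro p hp q hq hpq
          have hp1 := mem_filter.1 (mem_coe.1 hp)
          have hq1 := mem_filter.1 (mem_coe.1 hq)
          exact Prod.ext hpq (hp1.2.trans hq1.2.symm)
      exact h2.trans (card_low F _)
    have h3 : (C1.image Prod.snd).card ≤ b := by
      have := card_le_univ (C1.image Prod.snd)
      simpa using this
    exact h1.trans (Nat.mul_le_mul_left _ h3)
  have hsub : E ⊆ R1 ∪ R2 ∪ C2 ∪ C1 := by
    rintro ⟨m, z⟩ hmz
    by_contra hcon
    simp only [mem_union, not_or] at hcon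
    obtain ⟨⟨⟨n1, n2⟩, n3⟩, n4⟩ := hcon
    rw [hR1, mem_filter] at n1
    rw [hR2, mem_filter] at n2
    rw [hC2, mem_filter] at n3
    rw [hC1, mem_filter] at n4
    push Not at n1 n2 n3 n4
    obtain ⟨⟨m1, l⟩, hq1, hm1, hl⟩ := n1 hmz
    obtain ⟨⟨m2, l'⟩, hq2, hm2, hl'⟩ := n2 hmz
    obtain ⟨⟨y, z1⟩, hq3, hz1, hy⟩ := n3 hmz
    have hcard := n4 hmz
    simp only at hm1 hm2 hz1 hl hl' hy hcard
    subst hm1 hm2 hz1
    obtain ⟨x, hx, hxm⟩ := exists_far _ m2 (4 * ρ - 2) (by omega)
      (fun x hx => (mem_filter.1 hx).2.2) hcard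
    have hx' := (mem_filter.1 hx).2
    have := hd x m2 y l z1 l' hx'.2 hy hl hl' hx'.1 hq3 hq1 hq2
    have e1 : (m2 : ℕ) < y := hy
    have e2 : (l : ℕ) < z1 := hl
    have e3 : (z1 : ℕ) < l' := hl'
    omega
  have hc := card_le_card hsub
  have u1 := card_union_le (R1 ∪ R2 ∪ C2) C1
  have u2 := card_union_le (R1 ∪ R2) C2
  have u3 := card_union_le R1 R2
  have e : (4 * ρ - 1) * b = (4 * ρ - 2) * b + b := by
    have : 4 * ρ - 1 = 4 * ρ - 2 + 1 := by omega
    rw [this]
    ring
  rw [e]
  omega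

end Pool.Agent.DLK
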