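import Pool.Agent.Lib_MP_72f673_lc.Surgery

set_option autoImplicit false

/-!
Linkages for the pairs `(s i, t i)`.
-/

namespace Pool.Agent.DLK

/-- A linkage: pairwise vertex-disjoint paths, the `i`-th one with ends `s i` and `t i`; a path is
the list of its vertices. -/
structure PLinkage {V : Type} (G : SimpleGraph V) {k : ℕ} (s t : Fin k → V) where
  path : Fin k → List V
  chain : ∀ i, (path i).IsChain G.Adj
  nodup : ∀ i, (path i).Nodup
  head : ∀ i, (path i).head? = some (s i)
  last : ∀ i, (path i).getLast? = some (t i)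
  disj : ∀ i j, i ≠ j → (path i).Disjoint (path j)

/-- Weight of a linkage. -/
def PLinkage.weight {V : Type} {G : SimpleGraph V} {k : ℕ} {s t : Fin k → V}
    (L : PLinkage G s t) (c : Sym2 V → ℕ) : ℕ :=
  ∑ i, pathWeight c (L.path i)

/-- Number of vertices of a linkage. -/
def PLinkage.order {V : Type} {G : SimpleGraph V} {k : ℕ} {s t : Fin k → V}
    (L : PLinkage G s t) : ℕ :=
  ∑ i, (L.path i).length

end Pool.Agent.DLK
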