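import Pool.Agent.Lib_MP_72f673_lc.DenseDefs

set_option autoImplicit false

/-!
Local structure of linkages of minimum weight.
-/

namespace Pool.Agent.DLK

open Finset

variable {V : Type} {G : SimpleGraph V} {k : ℕ} {s t : Fin k → V}

theorem min_one (c : Sym2 V → ℕ) (L : PLinkage G s t)
    (hmin : ∀ L' : PLinkage G s t, L.weight c ≤ L'.weight c) (i : Fin k) (l : List V)
    (hc : l.IsChain G.Adj) (hn : l.Nodup) (hh : l.head? = (L.path i).head?)
    (hl : l.getLast? = (L.path i).getLast?) (hd : ∀ j, j ≠ i → l.Disjoint (L.path j)) :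
    pathWeight c (L.path i) ≤ pathWeight c l := by
  let L' : PLinkage G s t :=
    { path := Function.update L.path i l
      chain := by
        intro a
        by_cases h : a = i
        · subst h; simpa using hc
        · rw [Function.update_of_ne h]; exact L.chain a
      nodup := by
        intro a
        by_cases h : a = i
        · subst h; simpa using hn
        · rw [Function.update_of_ne h]; exact L.nodup a
      head := by
        intro a
        by_cases h : a = i
        · subst h; simpa using hh.trans (L.head a)
        · rw [Function.update_of_ne h]; exact L.head a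
      last := by
        intro a
        by_cases h : a = i
        · subst h; simpa using hl.trans (L.last a)
        · rw [Function.update_of_ne h]; exact L.last a
      disj := by
        intro a b hab
        by_cases h : a = i
        · subst h
          rw [Function.update_self, Function.update_of_ne (Ne.symm hab)]
          exact hd b (Ne.symm hab)
        · by_cases h' : b = i
          · subst h'
            rw [Function.update_self, Function.update_of_ne h]
            exact (hd a h).symm
          · rw [Function.update_of_ne h, Function.update_of_ne h']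
            exact L.disj a b hab }
  have h := hmin L'
  unfold PLinkage.weight at h
  rw [← Finset.add_sum_erase univ _ (mem_univ i), ← Finset.add_sum_erase univ _ (mem_univ i)] at h
  have e : ∑ x ∈ univ.erase i, pathWeight c (L'.path x) =
      ∑ x ∈ univ.erase i, pathWeight c (L.path x) := by
    refine sum_congr rfl fun x hx => ?_
    have hx' : x ≠ i := (mem_erase.1 hx).1
    show pathWeight c (Function.update L.path i l x) = _
    rw [Function.update_of_ne hx']
  have e2 : L'.path i = l := Function.update_self ..
  rw [e, e2] at h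
  omega

theorem min_two (c : Sym2 V → ℕ) (L : PLinkage G s t)
    (hmin : ∀ L' : PLinkage G s t, L.weight c ≤ L'.weight c) (i j : Fin k) (hij : i ≠ j)
    (l1 l2 : List V)
    (hc1 : l1.IsChain G.Adj) (hn1 : l1.Nodup) (hh1 : l1.head? = (L.path i).head?)
    (hl1 : l1.getLast? = (L.path i).getLast?)
    (hc2 : l2.IsChain G.Adj) (hn2 : l2.Nodup) (hh2 : l2.head? = (L.path j).head?)
    (hl2 : l2.getLast? = (L.path j).getLast?)
    (hd1 : ∀ h, h ≠ i → h ≠ j → l1.Disjoint (L.path h))
    (hd2 : ∀ h, h ≠ i → h ≠ j → l2.Disjoint (L.path h)) (hd : l1.Disjoint l2) :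
    pathWeight c (L.path i) + pathWeight c (L.path j) ≤ pathWeight c l1 + pathWeight c l2 := by
  let p : Fin k → List V := Function.update (Function.update L.path i l1) j l2
  have pj : p j = l2 := Function.update_self ..
  have pi : p i = l1 := by
    show Function.update (Function.update L.path i l1) j l2 i = l1
    rw [Function.update_of_ne hij, Function.update_self]
  have po : ∀ a, a ≠ i → a ≠ j → p a = L.path a := by
    intro a h1 h2
    show Function.update (Function.update L.path i l1) j l2 a = _
    rw [Function.update_of_ne h2, Function.update_of_ne h1]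
  have cases3 : ∀ a, a = i ∨ a = j ∨ (a ≠ i ∧ a ≠ j) := by
    intro a
    by_cases h1 : a = i
    · exact Or.inl h1
    · by_cases h2 : a = j
      · exact Or.inr (Or.inl h2)
      · exact Or.inr (Or.inr ⟨h1, h2⟩)
  let L' : PLinkage G s t :=
    { path := p
      chain := by
        intro a
        rcases cases3 a with h | h | ⟨h, h'⟩
        · rw [h, pi]; exact hc1
        · rw [h, pj]; exact hc2
        · rw [po a h h']; exact L.chain a
      nodup := by
        intro a
        rcases cases3 a with h | h | ⟨h, h'⟩
        · rw [h, pi]; exact hn1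
        · rw [h, pj]; exact hn2
        · rw [po a h h']; exact L.nodup a
      head := by
        intro a
        rcases cases3 a with h | h | ⟨h, h'⟩
        · rw [h, pi]; exact hh1.trans (L.head i)
        · rw [h, pj]; exact hh2.trans (L.head j)
        · rw [po a h h']; exact L.head a
      last := by
        intro a
        rcases cases3 a with h | h | ⟨h, h'⟩
        · rw [h, pi]; exact hl1.trans (L.last i)
        · rw [h, pj]; exact hl2.trans (L.last j)
        · rw [po a h h']; exact L.last a
      disj := by
        intro a b hab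
        rcases cases3 a with h | h | ⟨h, h'⟩ <;> rcases cases3 b with g | g | ⟨g, g'⟩
        · exact absurd (h.trans g.symm) hab
        · rw [h, g, pi, pj]; exact hd
        · rw [h, pi, po b g g']; exact hd1 b g g'
        · rw [h, g, pi, pj]; exact hd.symm
        · exact absurd (h.trans g.symm) hab
        · rw [h, pj, po b g g']; exact hd2 b g g'
        · rw [g, pi, po a h h']; exact (hd1 a h h').symm
        · rw [g, pj, po a h h']; exact (hd2 a h h').symm
        · rw [po a h h', po b g g']; exact L.disj a b hab }
  have h := hmin L'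
  unfold PLinkage.weight at h
  have hj : j ∈ (univ : Finset (Fin k)).erase i := mem_erase.2 ⟨Ne.symm hij, mem_univ _⟩
  rw [← Finset.add_sum_erase univ _ (mem_univ i), ← Finset.add_sum_erase univ _ (mem_univ i),
    ← Finset.add_sum_erase _ _ hj, ← Finset.add_sum_erase _ _ hj] at h
  have e : ∑ x ∈ (univ.erase i).erase j, pathWeight c (L'.path x) =
      ∑ x ∈ (univ.erase i).erase j, pathWeight c (L.path x) := by
    refine sum_congr rfl fun x hx => ?_
    have hx1 := mem_erase.1 hx
    have hx2 := mem_erase.1 hx1.2
    show pathWeight c (p x) = _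
    rw [po x hx2.1 hx1.1]
  have e2 : L'.path i = l1 := pi
  have e3 : L'.path j = l2 := pj
  rw [e, e2, e3] at h
  omega

variable (c : Sym2 V → ℕ) (M ρ : ℕ) (hM0 : 0 < M)
  (hM : ∀ u v, G.Adj u v → M ≤ c s(u, v)) (hR : ∀ u v, G.Adj u v → c s(u, v) ≤ ρ * M)
  (L : PLinkage G s t) (hmin : ∀ L' : PLinkage G s t, L.weight c ≤ L'.weight c)

include hM0 hM hR hmin

theorem within (i : Fin k) (x y : Fin (L.path i).length) (h : x < y)
    (h1 : G.Adj ((L.path i).get x) ((L.path i).get y)) : (y : ℕ) - x ≤ ρ := by
  obtain ⟨l, a1, a2, a3, a4, a5, a6⟩ := shortcut G c M (ρ * M) hM hR (L.path i) (L.chain i)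
    (L.nodup i) x y h h1
  have := min_one c L hmin i l a1 a2 a3 a4 (fun j hj v hv hv' =>
    L.disj j i hj hv' (a5 v hv))
  have h2 : M * (y - x) ≤ ρ * M := by omega
  have h3 : M * (y - x) ≤ M * ρ := by rw [mul_comm M ρ]; exact h2
  exact Nat.le_of_mul_le_mul_left h3 hM0

theorem outside (w : V) (hw : ∀ j, w ∉ L.path j) (i : Fin k) (x y : Fin (L.path i).length)
    (h : x < y) (h1 : G.Adj ((L.path i).get x) w) (h2 : G.Adj ((L.path i).get y) w) :
    (y : ℕ) - x ≤ 2 * ρ := by
  obtain ⟨l, a1, a2, a3, a4, a5, a6⟩ := surgery G c M (ρ * M) hM hR (L.path i) (L.chain i)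
    (L.nodup i) x y h w (hw i) h1 h2.symm
  have := min_one c L hmin i l a1 a2 a3 a4 (fun j hj v hv hv' => by
    rcases a5 v hv with rfl | ⟨z, -, hz⟩
    · exact hw j hv'
    · exact L.disj j i hj hv' (hz ▸ List.get_mem _ _))
  have h2 : M * (y - x) ≤ 2 * (ρ * M) := by omega
  have h3 : M * (y - x) ≤ M * (2 * ρ) := by
    have : M * (2 * ρ) = 2 * (ρ * M) := by ring
    rw [this]; exact h2
  exact Nat.le_of_mul_le_mul_left h3 hM0

theorem diamond (i j : Fin k) (hij : i ≠ j) (x m y : Fin (L.path i).length)
    (l z l' : Fin (L.path j).length) (hxm : x < m) (hmy : m < y) (hlz : l < z) (hzl : z < l')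
    (h1 : G.Adj ((L.path i).get x) ((L.path j).get z))
    (h2 : G.Adj ((L.path i).get y) ((L.path j).get z))
    (h3 : G.Adj ((L.path i).get m) ((L.path j).get l))
    (h4 : G.Adj ((L.path i).get m) ((L.path j).get l')) :
    ((y : ℕ) - x) + ((l' : ℕ) - l) ≤ 4 * ρ := by
  have hw1 : (L.path j).get z ∉ L.path i := fun h => L.disj i j hij h (List.get_mem _ _)
  have hw2 : (L.path i).get m ∉ L.path j := fun h => L.disj i j hij (List.get_mem _ _) h
  obtain ⟨p, a1, a2, a3, a4, a5, a6⟩ := surgery G c M (ρ * M) hM hR (L.path i) (L.chain i)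
    (L.nodup i) x y (hxm.trans hmy) _ hw1 h1 h2.symm
  obtain ⟨q, b1, b2, b3, b4, b5, b6⟩ := surgery G c M (ρ * M) hM hR (L.path j) (L.chain j)
    (L.nodup j) l l' (hlz.trans hzl) _ hw2 h3.symm h4
  have injI : ∀ u v : Fin (L.path i).length, (L.path i).get u = (L.path i).get v → u = v :=
    fun u v h => (List.nodup_iff_injective_get.1 (L.nodup i)) h
  have injJ : ∀ u v : Fin (L.path j).length, (L.path j).get u = (L.path j).get v → u = v :=
    fun u v h => (List.nodup_iff_injective_get.1 (L.nodup j)) h
  have := min_two c L hmin i j hij p q a1 a2 a3 a4 b1 b2 b3 b4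
    (fun h hi hj v hv hv' => by
      rcases a5 v hv with rfl | ⟨u, -, hu⟩
      · exact L.disj h j hj hv' (List.get_mem _ _)
      · exact L.disj h i hi hv' (hu ▸ List.get_mem _ _))
    (fun h hi hj v hv hv' => by
      rcases b5 v hv with rfl | ⟨u, -, hu⟩
      · exact L.disj h i hi hv' (List.get_mem _ _)
      · exact L.disj h j hj hv' (hu ▸ List.get_mem _ _))
    (fun v hv hv' => by
      rcases a5 v hv with e1 | ⟨u, hu1, hu⟩ <;> rcases b5 v hv' with e2 | ⟨u', hu1', hu'⟩
      · apply hw1
        rw [← e1, e2]
        exact List.get_mem _ _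
      · have := injJ u' z (hu'.trans e1)
        rw [this] at hu1'
        rcases hu1' with h | h
        · exact absurd hlz (not_lt.2 h)
        · exact absurd hzl (not_lt.2 h)
      · have := injI u m (hu.trans e2)
        rw [this] at hu1
        rcases hu1 with h | h
        · exact absurd hxm (not_lt.2 h)
        · exact absurd hmy (not_lt.2 h)
      · exact L.disj i j hij (hu ▸ List.get_mem _ _) (hu' ▸ List.get_mem _ _))
  have h5 : M * (y - x) + M * (l' - l) ≤ 4 * (ρ * M) := by omega
  have h6 : M * (((y : ℕ) - x) + ((l' : ℕ) - l)) ≤ M * (4 * ρ) := by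
    have e1 : M * (4 * ρ) = 4 * (ρ * M) := by ring
    rw [e1, mul_add]; exact h5
  exact Nat.le_of_mul_le_mul_left h6 hM0

end Pool.Agent.DLK
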