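import Pool.Agent.Lib_MP_72f673_lc.DenseCount

set_option autoImplicit false

/-!
Linkages of minimum weight have few vertices if all degrees are large.
-/

namespace Pool.Agent.DLK

open Finset Classical

variable {V : Type} [Fintype V] {G : SimpleGraph V} {k : ℕ} {s t : Fin k → V}

theorem order_bound (c : Sym2 V → ℕ) (M ρ δ : ℕ) (hM0 : 0 < M) (hρ : 1 ≤ ρ)
    (hM : ∀ u v, G.Adj u v → M ≤ c s(u, v)) (hR : ∀ u v, G.Adj u v → c s(u, v) ≤ ρ * M)
    (L : PLinkage G s t) (hmin : ∀ L' : PLinkage G s t, L.weight c ≤ L'.weight c)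
    (hδ : ∀ v, δ ≤ (univ.filter (fun w => G.Adj v w)).card) :
    L.order * (δ + 2 * ρ + 1) ≤
      2 * ρ * k * L.order + (2 * ρ + 1) * k * Fintype.card V := by
  set mi : Fin k → ℕ := fun i => (L.path i).length with hmi
  set g : ∀ i : Fin k, Fin (mi i) → V := fun i x => (L.path i).get x with hg
  have hginj : ∀ i (x y : Fin (mi i)), g i x = g i y → x = y := fun i x y h =>
    (List.nodup_iff_injective_get.1 (L.nodup i)) h
  have hgmem : ∀ i (x : Fin (mi i)), g i x ∈ L.path i := fun i x => List.get_mem _ _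
  have hord : L.order = ∑ i, mi i := rfl
  set O : Finset V := univ.filter (fun w => ∀ j, w ∉ L.path j) with hO
  set e : Fin k → Fin k → ℕ := fun i j =>
    ∑ x : Fin (mi i), ∑ y : Fin (mi j), if G.Adj (g i x) (g j y) then 1 else 0 with he
  -- (A)
  have hA : ∀ i (x : Fin (mi i)), δ ≤ (∑ j, ∑ y : Fin (mi j),
      if G.Adj (g i x) (g j y) then 1 else 0) +
      ∑ w ∈ O, if G.Adj (g i x) w then 1 else 0 := by
    intro i x
    refine (hδ (g i x)).trans ?_
    have hsub : univ.filter (fun w => G.Adj (g i x) w) ⊆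
        (univ.biUnion (fun j => (univ.filter (fun y : Fin (mi j) =>
          G.Adj (g i x) (g j y))).image (g j))) ∪ O.filter (fun w => G.Adj (g i x) w) := by
      intro w hw
      have hw' := (mem_filter.1 hw).2
      by_cases h : ∀ j, w ∉ L.path j
      · exact mem_union_right _ (mem_filter.2 ⟨mem_filter.2 ⟨mem_univ _, h⟩, hw'⟩)
      · push Not at h
        obtain ⟨j, hj⟩ := h
        obtain ⟨y, hy⟩ := List.mem_iff_get.1 hj
        refine mem_union_left _ (mem_biUnion.2 ⟨j, mem_univ _, mem_image.2 ⟨y, ?_, hy⟩⟩)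
        rw [mem_filter]
        refine ⟨mem_univ _, ?_⟩
        show G.Adj (g i x) ((L.path j).get y)
        rw [hy]
        exact hw'
    refine (card_le_card hsub).trans ((card_union_le _ _).trans (Nat.add_le_add ?_ ?_))
    · refine card_biUnion_le.trans (sum_le_sum fun j _ => ?_)
      refine card_image_le.trans ?_
      rw [card_filter]
    · rw [card_filter]
  -- (B), (C)
  have hsum : δ * L.order ≤ (∑ i, ∑ j, e i j) +
      ∑ w ∈ O, ∑ i, ∑ x : Fin (mi i), if G.Adj (g i x) w then 1 else 0 := by
    have h1 : δ * L.order = ∑ i, ∑ _x : Fin (mi i), δ := by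
      rw [hord, mul_sum]
      refine sum_congr rfl fun i _ => ?_
      simp [mul_comm]
    rw [h1]
    have h2 : (∑ i, ∑ _x : Fin (mi i), δ) ≤ ∑ i, ∑ x : Fin (mi i),
        ((∑ j, ∑ y : Fin (mi j), if G.Adj (g i x) (g j y) then 1 else 0) +
        ∑ w ∈ O, if G.Adj (g i x) w then 1 else 0) :=
      sum_le_sum fun i _ => sum_le_sum fun x _ => hA i x
    refine h2.trans (le_of_eq ?_)
    simp_rw [sum_add_distrib]
    congr 1
    · refine sum_congr rfl fun i _ => ?_
      rw [sum_comm]
    · rw [sum_comm]
      rw [sum_congr rfl fun i (_ : i ∈ univ) => sum_comm]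
  -- outside vertices
  have hout : (∑ w ∈ O, ∑ i, ∑ x : Fin (mi i), if G.Adj (g i x) w then 1 else 0) ≤
      O.card * (k * (2 * ρ + 1)) := by
    have h1 : ∀ w ∈ O, (∑ i, ∑ x : Fin (mi i), if G.Adj (g i x) w then 1 else 0) ≤
        k * (2 * ρ + 1) := by
      intro w hw
      have hw' := (mem_filter.1 hw).2
      have h2 : ∀ i ∈ (univ : Finset (Fin k)),
          (∑ x : Fin (mi i), if G.Adj (g i x) w then 1 else 0) ≤ 2 * ρ + 1 := by
        intro i _
        rw [← card_filter]
        refine card_window _ _ ?_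
        intro x hx y hy hxy
        exact outside c M ρ hM0 hM hR L hmin w hw' i x y hxy (mem_filter.1 hx).2
          (mem_filter.1 hy).2
      have h3 := sum_le_sum h2
      simpa using h3
    have h2 := sum_le_sum h1
    simpa using h2
  -- number of vertices
  have hn : O.card + L.order ≤ Fintype.card V := by
    set P : Finset V := (univ : Finset (Σ i : Fin k, Fin (mi i))).image
      (fun p => g p.1 p.2) with hP
    have hPc : P.card = L.order := by
      rw [hP, card_image_of_injective, hord]
      · simp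
      · rintro ⟨i, x⟩ ⟨j, y⟩ h
        simp only at h
        by_cases hij : i = j
        · subst hij
          rw [hginj i x y h]
        · exact absurd (h ▸ hgmem i x) (fun h' => L.disj i j hij (hgmem i x) (by
            rw [h]; exact hgmem j y))
    have hdis : Disjoint O P := by
      rw [disjoint_left]
      intro w hw hw'
      obtain ⟨⟨i, x⟩, -, hx⟩ := mem_image.1 hw'
      exact (mem_filter.1 hw).2 i (hx ▸ hgmem i x)
    rw [← hPc, ← card_union_of_disjoint hdis]
    exact card_le_univ _
  -- edges inside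
  have ecard : ∀ i j, e i j = (univ.filter (fun p : Fin (mi i) × Fin (mi j) =>
      G.Adj (g i p.1) (g j p.2))).card := by
    intro i j
    rw [card_filter, Fintype.sum_prod_type]
  have esymm : ∀ i j, e i j = e j i := by
    intro i j
    simp only [he]
    rw [sum_comm]
    refine sum_congr rfl fun x _ => sum_congr rfl fun y _ => ?_
    simp only [G.adj_comm]
  have ediag : ∀ i, e i i ≤ 2 * ρ * mi i := by
    intro i
    have h1 : ∀ x ∈ (univ : Finset (Fin (mi i))),
        (∑ y : Fin (mi i), if G.Adj (g i x) (g i y) then 1 else 0) ≤ 2 * ρ := by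
      intro x _
      rw [← card_filter]
      refine card_within _ x ρ ?_ ?_ ?_
      · intro h
        exact G.loopless.irrefl _ (mem_filter.1 h).2
      · intro y hy hxy
        exact within c M ρ hM0 hM hR L hmin i x y hxy (mem_filter.1 hy).2
      · intro y hy hyx
        exact within c M ρ hM0 hM hR L hmin i y x hyx (mem_filter.1 hy).2.symm
    have h2 := sum_le_sum h1
    have h3 : e i i ≤ mi i * (2 * ρ) := by
      refine (show e i i ≤ ∑ _x : Fin (mi i), 2 * ρ from h2).trans (le_of_eq ?_)
      simp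
    rw [mul_comm]
    exact h3
  have ecross : ∀ i j, i ≠ j → e i j ≤ 2 * mi i + (4 * ρ - 1) * mi j := by
    intro i j hij
    rw [ecard]
    refine card_cross _ ρ hρ ?_
    intro x m y l z l' h1 h2 h3 h4 h5 h6 h7 h8
    exact diamond c M ρ hM0 hM hR L hmin i j hij x m y l z l' h1 h2 h3 h4
      (mem_filter.1 h5).2 (mem_filter.1 h6).2 (mem_filter.1 h7).2 (mem_filter.1 h8).2
  have epair : ∀ i j, 2 * e i j + (if i = j then (8 * ρ + 2) * mi i else 0) ≤
      (4 * ρ + 1) * (mi i + mi j) + (if i = j then 4 * ρ * mi i else 0) := by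
    intro i j
    by_cases hij : i = j
    · subst hij
      have := ediag i
      simp only [if_true]
      nlinarith
    · simp only [hij, if_false]
      have h1 := ecross i j hij
      have h2 := ecross j i (Ne.symm hij)
      rw [← esymm i j] at h2
      obtain ⟨r, hr⟩ : ∃ r, 4 * ρ = r + 1 := ⟨4 * ρ - 1, by omega⟩
      have h3 : 4 * ρ - 1 = r := by omega
      rw [h3] at h1 h2
      rw [hr]
      nlinarith
  have esum : (∑ i, ∑ j, e i j) + (4 * ρ + 1) * L.order ≤
      (4 * ρ + 1) * (k * L.order) + 2 * ρ * L.order := by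
    have h1 : ∑ i, ∑ j, (2 * e i j + (if i = j then (8 * ρ + 2) * mi i else 0)) ≤
        ∑ i, ∑ j, ((4 * ρ + 1) * (mi i + mi j) + (if i = j then 4 * ρ * mi i else 0)) :=
      sum_le_sum fun i _ => sum_le_sum fun j _ => epair i j
    have h2 : ∑ i, ∑ j, (2 * e i j + (if i = j then (8 * ρ + 2) * mi i else 0)) =
        2 * (∑ i, ∑ j, e i j) + (8 * ρ + 2) * L.order := by
      simp_rw [sum_add_distrib]
      congr 1
      · rw [mul_sum]
        refine sum_congr rfl fun i _ => ?_
        rw [mul_sum]
      · rw [hord, mul_sum]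
        refine sum_congr rfl fun i _ => ?_
        simp
    have h3 : ∑ i, ∑ j, ((4 * ρ + 1) * (mi i + mi j) + (if i = j then 4 * ρ * mi i else 0)) =
        (4 * ρ + 1) * (2 * k * L.order) + 4 * ρ * L.order := by
      simp_rw [sum_add_distrib]
      congr 1
      · have h4 : ∑ i : Fin k, ∑ j : Fin k, (mi i + mi j) = 2 * k * L.order := by
          simp_rw [sum_add_distrib]
          simp only [sum_const, card_univ, Fintype.card_fin, smul_eq_mul]
          rw [← mul_sum, ← hord]
          ring
        rw [← h4, mul_sum]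
        refine sum_congr rfl fun i _ => ?_
        rw [mul_sum]
      · rw [hord, mul_sum]
        refine sum_congr rfl fun i _ => ?_
        simp
    rw [h2, h3] at h1
    nlinarith
  have h4 : (O.card + L.order) * (k * (2 * ρ + 1)) ≤ Fintype.card V * (k * (2 * ρ + 1)) :=
    Nat.mul_le_mul_right _ hn
  have h5 : δ * L.order ≤ (∑ i, ∑ j, e i j) + O.card * (k * (2 * ρ + 1)) :=
    hsum.trans (Nat.add_le_add_left hout _)
  nlinarith

theorem order_le (L : PLinkage G s t) : L.order ≤ Fintype.card V := by
  have hinj : Function.Injective (fun p : Σ i : Fin k, Fin (L.path i).length =>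
      (L.path p.1).get p.2) := by
    rintro ⟨i, x⟩ ⟨j, y⟩ h
    simp only at h
    by_cases hij : i = j
    · subst hij
      rw [(List.nodup_iff_injective_get.1 (L.nodup i)) h]
    · exact absurd (List.get_mem (L.path i) x) (fun h' => L.disj i j hij h' (by
        rw [h]; exact List.get_mem _ _))
  have := Fintype.card_le_of_injective _ hinj
  simpa [PLinkage.order] using this

theorem order_dense (c : Sym2 V → ℕ) (M ρ q : ℕ) (hM0 : 0 < M) (hρ : 1 ≤ ρ)
    (hM : ∀ u v, G.Adj u v → M ≤ c s(u, v)) (hR : ∀ u v, G.Adj u v → c s(u, v) ≤ ρ * M)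
    (L : PLinkage G s t) (hmin : ∀ L' : PLinkage G s t, L.weight c ≤ L'.weight c)
    (hδ : ∀ v, Fintype.card V ≤ q * (univ.filter (fun w => G.Adj v w)).card) :
    L.order ≤ (4 * ρ + 1) * k * q := by
  have hA := order_le L
  rcases Nat.eq_zero_or_pos (Fintype.card V) with hn | hn
  · have : L.order = 0 := by omega
    rw [this]
    exact Nat.zero_le _
  rcases Nat.eq_zero_or_pos q with hq | hq
  · exfalso
    obtain ⟨v⟩ : Nonempty V := Fintype.card_pos_iff.1 hn
    have := hδ v
    rw [hq] at this
    omega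
  set n := Fintype.card V with hnn
  set δ := (n + q - 1) / q with hδ'
  have h1 : ∀ v, δ ≤ (univ.filter (fun w => G.Adj v w)).card := by
    intro v
    have h2 := hδ v
    have h3 : n + q - 1 < q * ((univ.filter (fun w => G.Adj v w)).card + 1) := by
      rw [mul_add, mul_one]
      omega
    have h4 := Nat.div_lt_of_lt_mul h3
    omega
  have h2 : n ≤ q * δ := by
    have h3 := Nat.div_add_mod (n + q - 1) q
    have h4 := Nat.mod_lt (n + q - 1) hq
    rw [← hδ'] at h3
    omega
  have h3 := order_bound c M ρ δ hM0 hρ hM hR L hmin h1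
  rw [← hnn] at h3
  have h4 : L.order * n ≤ (4 * ρ + 1) * k * q * n := by
    have h5 : L.order * n ≤ L.order * (q * δ) := Nat.mul_le_mul_left _ h2
    have h6 : L.order * δ ≤ 2 * ρ * k * L.order + (2 * ρ + 1) * k * n := by nlinarith
    have h7 : q * (L.order * δ) ≤ q * (2 * ρ * k * L.order + (2 * ρ + 1) * k * n) :=
      Nat.mul_le_mul_left _ h6
    have h8 : 2 * ρ * k * L.order ≤ 2 * ρ * k * n := Nat.mul_le_mul_left _ hA
    have h9 : q * (2 * ρ * k * L.order + (2 * ρ + 1) * k * n) ≤
        q * (2 * ρ * k * n + (2 * ρ + 1) * k * n) :=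
      Nat.mul_le_mul_left _ (Nat.add_le_add_right h8 _)
    calc L.order * n ≤ L.order * (q * δ) := h5
      _ = q * (L.order * δ) := by ring
      _ ≤ q * (2 * ρ * k * n + (2 * ρ + 1) * k * n) := h7.trans h9
      _ = (4 * ρ + 1) * k * q * n := by ring
  exact Nat.le_of_mul_le_mul_right h4 hn

end Pool.Agent.DLK
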