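import Pool.Agent.Lib_MP_72f673_lc.Count4Defs

set_option autoImplicit false
set_option maxRecDepth 100000

/-!
Small finite facts on the two systems of eight 2-sets.
-/

namespace Pool.Agent.SSK

theorem noQ : ∀ β : Term 4 → Bool,
    nbQ (0, false) (β (0, false)) = nbQ (0, true) (β (0, true)) →
    nbQ (1, false) (β (1, false)) = nbQ (1, true) (β (1, true)) →
    ∃ a b c, a ≠ b ∧ a ≠ c ∧ b ≠ c ∧ nbQ a (β a) = nbQ b (β b) ∧ nbQ a (β a) = nbQ c (β c) := by
  decide +kernel

/-- middle vertices of a linkage in the first system -/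
def s4 : Fin 4 → Fin 4
  | 0 => 2
  | 1 => 3
  | 2 => 1
  | 3 => 0

theorem s4_inj : ∀ a b, s4 a = s4 b → a = b := by decide

theorem s4_nb : ∀ a : Term 4, ∃ x, nbP a x = s4 a.1 := by decide

end Pool.Agent.SSK
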