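import Pool.Agent.Lib_MP_72f673_lc.NegSigned
import Pool.Agent.Lib_MP_72f673_lc.Small4

set_option autoImplicit false

/-!
Existence of the prescribed linkage in the first instance, non-existence in the second.
-/

namespace Pool.Agent.SSK

open Finset Classical

variable {k : ℕ}

theorem prescribed_P (hk : 4 ≤ k) (j : ℕ) :
    prescribed (BI (NT (k := k) nbP)) j (4 * k) ≠ 0 := by
  have hfin := finite_linkage (BI (NT (k := k) nbP))
  have hfin2 : Finite {L : Linkage (BI (NT (k := k) nbP)).G (BI (NT (k := k) nbP)).T //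
    (∀ i : Fin k, (i : ℕ) < j → L.mate (i, false) = (i, true)) ∧
      L.weight2 (BI (NT (k := k) nbP)).c = 4 * k} := inferInstance
  let s : Fin k → Fin k := fun i => if h : (i : ℕ) < 4 then Fin.castLE hk (s4 ⟨i, h⟩) else i
  have s_lt : ∀ (i : Fin k) (h : (i : ℕ) < 4), s i = Fin.castLE hk (s4 ⟨i, h⟩) :=
    fun i h => dif_pos h
  have s_ge : ∀ i : Fin k, ¬ (i : ℕ) < 4 → s i = i := fun i h => dif_neg h
  have s_inj : ∀ i i' : Fin k, s i = s i' → i = i' := by
    intro i i' h
    by_cases h1 : (i : ℕ) < 4 <;> by_cases h2 : (i' : ℕ) < 4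
    · rw [s_lt i h1, s_lt i' h2] at h
      have := s4_inj _ _ (Fin.castLE_injective hk h)
      have h5 : (i : ℕ) = i' := congrArg (fun x : Fin 4 => (x : ℕ)) this
      exact Fin.ext h5
    · rw [s_lt i h1, s_ge i' h2] at h
      have h3 := congrArg Fin.val h
      have h4 := (s4 ⟨i, h1⟩).2
      simp only [Fin.val_castLE] at h3
      omega
    · rw [s_ge i h1, s_lt i' h2] at h
      have h3 := congrArg Fin.val h
      have h4 := (s4 ⟨i', h2⟩).2
      simp only [Fin.val_castLE] at h3
      omega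
    · rwa [s_ge i h1, s_ge i' h2] at h
  let L : Linkage (Bip (NT (k := k) nbP)) (Sum.inl : Term k → Term k ⊕ Fin k) :=
    mk (fun a => (a.1, !a.2)) (fun a => s a.1)
      (by rintro ⟨i, b⟩; simp)
      (by rintro ⟨i, b⟩; simp)
      (by
        rintro ⟨i, b⟩
        unfold NT
        by_cases h : (i : ℕ) < 4
        · rw [dif_pos h]
          obtain ⟨x, hx⟩ := s4_nb (⟨i, h⟩, b)
          refine ⟨x, ?_⟩
          rw [hx, s_lt i h]
          rfl
        · rw [dif_neg h]
          exact s_ge i h)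
      (by intro a; rfl)
      (by
        rintro ⟨i, b⟩ ⟨i', b'⟩ h
        have := s_inj _ _ h
        simp only at this
        subst this
        cases b <;> cases b' <;> simp)
  have : Nonempty {L : Linkage (BI (NT (k := k) nbP)).G (BI (NT (k := k) nbP)).T //
    (∀ i : Fin k, (i : ℕ) < j → L.mate (i, false) = (i, true)) ∧
      L.weight2 (BI (NT (k := k) nbP)).c = 4 * k} :=
    ⟨⟨L, fun i _ => rfl, weight_const L⟩⟩
  exact Nat.card_pos.ne'

theorem prescribed_Q (hk : 4 ≤ k) (j : ℕ) (hj : 2 ≤ j) (W : ℕ) :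
    prescribed (BI (NT (k := k) nbQ)) j W = 0 := by
  unfold prescribed
  rw [Nat.card_eq_zero]
  left
  constructor
  rintro ⟨L, hL, -⟩
  let M : Linkage (Bip (NT (k := k) nbQ)) (Sum.inl : Term k → Term k ⊕ Fin k) := L
  have h1 : ∀ x : Term 4, ∃ y : Bool, (mid M (io hk x) : ℕ) = nbQ x y := by
    intro x
    have := (mid_spec M (io hk x)).1
    unfold NT at this
    have hx : ((io hk x).1 : ℕ) < 4 := x.1.2
    rw [dif_pos hx] at this
    exact this
  choose β hβ using h1
  have h0 : M.mate (io hk (0, false)) = io hk (0, true) :=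
    hL (Fin.castLE hk 0) (by simp; omega)
  have h1 : M.mate (io hk (1, false)) = io hk (1, true) :=
    hL (Fin.castLE hk 1) (by simp; omega)
  have e0 : nbQ (0, false) (β (0, false)) = nbQ (0, true) (β (0, true)) := by
    apply Fin.ext
    rw [← hβ, ← hβ, ← h0, mid_mate]
  have e1 : nbQ (1, false) (β (1, false)) = nbQ (1, true) (β (1, true)) := by
    apply Fin.ext
    rw [← hβ, ← hβ, ← h1, mid_mate]
  obtain ⟨a, b, c, hab, hac, hbc, h2, h3⟩ := noQ β e0 e1
  have h4 : mid M (io hk a) = mid M (io hk b) := Fin.ext (by rw [hβ, hβ, h2])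
  have h5 : mid M (io hk a) = mid M (io hk c) := Fin.ext (by rw [hβ, hβ, h3])
  have h6 := mid_eq M _ _ (fun h => hab (io_inj hk _ _ h).symm) h4
  have h7 := mid_eq M _ _ (fun h => hac (io_inj hk _ _ h).symm) h5
  exact hbc (io_inj hk _ _ (h6.trans h7.symm))

end Pool.Agent.SSK
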