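import Pool.Agent.Lib_MP_72f673_lc.DefsSigned

set_option autoImplicit false
set_option maxRecDepth 100000

/-!
The identity for three pairs, checked on the fifteen perfect matchings of six terminals.
-/

namespace Pool.Agent.SSK

def std3 (a : Term 3) : Term 3 := (a.1, !a.2)

def lam3 (S : Finset (Term 3)) (e : Bool) : ℤ :=
  if (∀ a, a ∈ S ↔ std3 a ∉ S) then (if e = decide (Even (inversions S std3)) then 3 else 1)
    else -1

/-- a function on the six terminals from its values -/
def mk6 {α : Type} (x0 x1 x2 x3 x4 x5 : α) : Term 3 → α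
  | (0, false) => x0
  | (0, true) => x1
  | (1, false) => x2
  | (1, true) => x3
  | (2, false) => x4
  | (2, true) => x5

theorem mk6_eta {α : Type} (f : Term 3 → α) :
    mk6 (f (0, false)) (f (0, true)) (f (1, false)) (f (1, true)) (f (2, false)) (f (2, true))
      = f := by
  funext a
  obtain ⟨i, b⟩ := a
  fin_cases i <;> cases b <;> rfl

/-- `a ↦ x`, `b ↦ y` is compatible with an involution -/
def cmp (a x b y : Term 3) : Bool := (x == b) == (y == a)

def leafOK (m : Term 3 → Term 3) : Bool := decide
  (((∑ S : Finset (Term 3), if (∀ a, a ∈ S ↔ m a ∉ S) then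
        lam3 S (decide (Even (inversions S m))) else 0)
      = if (m (0, false) = (0, true) ∧ m (1, false) = (1, true)) then 24 else 0) ∧
    (m (0, false) = (0, true) → m (1, false) = (1, true) → m (2, false) = (2, true)))

def ts3 : List (Term 3) :=
  [(0, false), (0, true), (1, false), (1, true), (2, false), (2, true)]

theorem mem_ts3 : ∀ a, a ∈ ts3 := by decide

/-- `P x` for all `x` with `c x` -/
def allw (c P : Term 3 → Bool) : Bool := ts3.all fun x => bif c x then P x else true

theorem allw_imp {c P : Term 3 → Bool} (h : allw c P = true) (x : Term 3) (hx : c x = true) :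
    P x = true := by
  have := List.all_eq_true.1 h x (mem_ts3 x)
  simpa [hx] using this

theorem id3_aux :
    (allw (fun x0 => x0 != (0, false)) fun x0 =>
    allw (fun x1 => x1 != (0, true) && cmp (0, false) x0 (0, true) x1) fun x1 =>
    allw (fun x2 => x2 != (1, false) && (cmp (0, false) x0 (1, false) x2 &&
      cmp (0, true) x1 (1, false) x2)) fun x2 =>
    allw (fun x3 => x3 != (1, true) && (cmp (0, false) x0 (1, true) x3 &&
      (cmp (0, true) x1 (1, true) x3 && cmp (1, false) x2 (1, true) x3))) fun x3 =>
    allw (fun x4 => x4 != (2, false) && (cmp (0, false) x0 (2, false) x4 &&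
      (cmp (0, true) x1 (2, false) x4 && (cmp (1, false) x2 (2, false) x4 &&
      cmp (1, true) x3 (2, false) x4)))) fun x4 =>
    allw (fun x5 => x5 != (2, true) && (cmp (0, false) x0 (2, true) x5 &&
      (cmp (0, true) x1 (2, true) x5 && (cmp (1, false) x2 (2, true) x5 &&
      (cmp (1, true) x3 (2, true) x5 && cmp (2, false) x4 (2, true) x5))))) fun x5 =>
    leafOK (mk6 x0 x1 x2 x3 x4 x5)) = true := by
  decide +kernel

theorem id3 : ∀ m : Term 3 → Term 3, (∀ a, m a ≠ a) → (∀ a, m (m a) = a) →
    ((∑ S : Finset (Term 3), if (∀ a, a ∈ S ↔ m a ∉ S) then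
        lam3 S (decide (Even (inversions S m))) else 0)
      = if (m (0, false) = (0, true) ∧ m (1, false) = (1, true)) then 24 else 0) ∧
    (m (0, false) = (0, true) → m (1, false) = (1, true) → m (2, false) = (2, true)) := by
  intro m hne hinv
  have hs : ∀ a b, cmp a (m a) b (m b) = true := by
    intro a b
    have h1 : m a = b ↔ m b = a :=
      ⟨fun h => by rw [← h, hinv], fun h => by rw [← h, hinv]⟩
    unfold cmp
    by_cases h2 : m a = b
    · simp [h2, h1.1 h2]
    · have h3 : m b ≠ a := fun h => h2 (h1.2 h)
      simp [h2, h3]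
  have hn : ∀ a, (m a != a) = true := fun a => by simp [hne a]
  have h := allw_imp (allw_imp (allw_imp (allw_imp (allw_imp (allw_imp id3_aux
    (m (0, false)) (by simp [hn])) (m (0, true)) (by simp [hn, hs]))
    (m (1, false)) (by simp [hn, hs])) (m (1, true)) (by simp [hn, hs]))
    (m (2, false)) (by simp [hn, hs])) (m (2, true)) (by simp [hn, hs])
  rw [mk6_eta] at h
  exact of_decide_eq_true h

end Pool.Agent.SSK
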