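import Pool.Agent.Lib_MP_72f673_lc.Defs

set_option autoImplicit false

/-!
Linear formulas for the numbers of linkages with at most one prescribed pair.
-/

namespace Pool.Agent.SSK

open Finset Classical

variable {k : ℕ}

theorem finite_linkage (X : Inst k) : Finite (Linkage X.G X.T) := by
  have := X.fin
  have : Finite {l : List X.V // l.Nodup} := by
    have : Fintype {l : List X.V // l.Nodup} := fintypeNodupList
    infer_instance
  let F : Linkage X.G X.T → (Term k → Term k) × (Term k → {l : List X.V // l.Nodup}) :=
    fun L => (L.mate, fun a => ⟨L.path a, L.nodup a⟩)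
  refine Finite.of_injective F ?_
  intro L M h
  have h1 : L.mate = M.mate := congrArg Prod.fst h
  have h2 : L.path = M.path := by
    funext a
    have := congrFun (congrArg Prod.snd h) a
    exact congrArg Subtype.val this
  cases L
  cases M
  simp only at h1 h2
  subst h1
  subst h2
  rfl

/-- the number of sets crossing a perfect matching -/
theorem cross_card (m : Term k → Term k) (hne : ∀ a, m a ≠ a) (hinv : ∀ a, m (m a) = a) :
    (univ.filter (fun S : Finset (Term k) => Crosses S m)).card = 2 ^ k := by
  set r : Term k → ℕ := fun a => (Fintype.equivFin (Term k) a : ℕ) with hr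
  have rinj : Function.Injective r := fun a b h => by
    have : Fintype.equivFin (Term k) a = Fintype.equivFin (Term k) b := Fin.ext h
    exact (Fintype.equivFin (Term k)).injective this
  set R : Finset (Term k) := univ.filter (fun a => r a < r (m a)) with hR
  have memR : ∀ a, a ∈ R ↔ r a < r (m a) := by intro a; simp [hR]
  have flip : ∀ a, m a ∈ R ↔ a ∉ R := by
    intro a
    rw [memR, memR, hinv, not_lt]
    have : r (m a) ≠ r a := fun h => hne a (rinj h)
    omega
  have minj : Function.Injective m := fun a b h => by rw [← hinv a, ← hinv b, h]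
  have hcard : R.card = k := by
    have h1 : (R.image m).card = R.card := card_image_of_injective _ minj
    have h2 : R.image m = Rᶜ := by
      ext a
      simp only [mem_image, mem_compl]
      constructor
      · rintro ⟨b, hb, rfl⟩ h
        exact (flip b).1 h hb
      · intro h
        exact ⟨m a, (flip a).2 h, hinv a⟩
    have h3 : R.card + (Rᶜ).card = Fintype.card (Term k) := card_add_card_compl R
    rw [← h2, h1] at h3
    have h4 : Fintype.card (Term k) = k * 2 := by simp [Term]
    omega
  have hpow : R.powerset.card = 2 ^ k := by rw [card_powerset, hcard]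
  refine Eq.trans (card_nbij' (t := R.powerset) (fun S => S ∩ R)
    (fun A => A ∪ (R \ A).image m) ?_ ?_ ?_ ?_) hpow
  · intro S _
    simp
  · intro A hA
    have hA' : A ⊆ R := by simpa using hA
    simp only [coe_filter, mem_univ, true_and, Set.mem_ofPred_eq]
    intro a
    have key : ∀ x, x ∈ A ∪ (R \ A).image m ↔ (x ∈ A ∨ (m x ∈ R ∧ m x ∉ A)) := by
      intro x
      simp only [mem_union, mem_image, mem_sdiff]
      constructor
      · rintro (h | ⟨y, hy, rfl⟩)
        · exact Or.inl h
        · right; rw [hinv]; exact hy
      · rintro (h | h)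
        · exact Or.inl h
        · exact Or.inr ⟨m x, h, hinv x⟩
    rw [key, key, hinv]
    have f1 := flip a
    by_cases h1 : a ∈ R
    · have h2 : m a ∉ R := fun h => (f1.1 h) h1
      have h3 : m a ∉ A := fun h => h2 (hA' h)
      tauto
    · have h2 : m a ∈ R := f1.2 h1
      have h3 : a ∉ A := fun h => h1 (hA' h)
      tauto
  · intro S hS
    have hS' : Crosses S m := by simpa using hS
    simp only
    ext x
    simp only [mem_union, mem_inter, mem_image, mem_sdiff]
    constructor
    · rintro (h | ⟨y, hy, rfl⟩)
      · exact h.1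
      · have := hS' y
        tauto
    · intro h
      by_cases hx : x ∈ R
      · exact Or.inl ⟨h, hx⟩
      · right
        refine ⟨m x, ⟨(flip x).2 hx, ?_⟩, hinv x⟩
        have := (hS' x).1 h
        tauto
  · intro A hA
    have hA' : A ⊆ R := by simpa using hA
    simp only
    ext x
    simp only [mem_union, mem_inter, mem_image, mem_sdiff]
    constructor
    · rintro ⟨h | ⟨y, hy, rfl⟩, hR'⟩
      · exact h
      · exact absurd hy.1 ((flip y).1 hR')
    · intro h
      exact ⟨Or.inl h, hA' h⟩

/-- signed number of crossing sets -/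
theorem signed_sum (m : Term k → Term k) (hne : ∀ a, m a ≠ a) (hinv : ∀ a, m (m a) = a)
    (a b : Term k) (hab : a ≠ b) :
    (∑ S : Finset (Term k), if Crosses S m then (if (a ∈ S ↔ b ∉ S) then (1 : ℤ) else -1) else 0)
      = if m a = b then 2 ^ k else 0 := by
  by_cases h : m a = b
  · subst h
    have hc : (2 : ℤ) ^ k = ((univ.filter (fun S : Finset (Term k) => Crosses S m)).card : ℤ) := by
      rw [cross_card m hne hinv]; push_cast; rfl
    rw [if_pos rfl, hc, Finset.card_filter, Nat.cast_sum]
    refine sum_congr rfl fun S _ => ?_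
    by_cases hS : Crosses S m
    · have := hS a
      simp [hS, this]
    · simp [hS]
  · rw [if_neg h]
    have hmb : m b ≠ a := fun h' => h (by rw [← h', hinv])
    have hm : ∀ (S : Finset (Term k)) (x : Term k), x ∈ symmDiff S {b, m b} ↔ (x ∈ S ↔ ¬ (x = b ∨ x = m b)) := by
      intro S x
      rw [mem_symmDiff, mem_insert, mem_singleton]
      tauto
    have hcr : ∀ S : Finset (Term k), Crosses S m → Crosses (symmDiff S {b, m b}) m := by
      intro S hS x
      rw [hm, hm]
      have h1 := hS x
      have h2 : (m x = b ∨ m x = m b) ↔ (x = b ∨ x = m b) := by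
        constructor
        · rintro (h | h)
          · right; rw [← h, hinv]
          · left; rw [← hinv x, h, hinv]
        · rintro (h | h)
          · right; rw [h]
          · left; rw [h, hinv]
      rw [h2]
      tauto
    have hinvol : ∀ S : Finset (Term k), symmDiff (symmDiff S {b, m b}) {b, m b} = S := by
      intro S
      rw [symmDiff_assoc, symmDiff_self]
      simp
    have hcr' : ∀ S : Finset (Term k), Crosses (symmDiff S {b, m b}) m ↔ Crosses S m := by
      intro S
      constructor
      · intro h'
        have := hcr _ h'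
        rwa [hinvol] at this
      · exact hcr S
    refine sum_involution (fun S _ => symmDiff S {b, m b}) ?_ ?_ ?_ ?_
    · intro S _
      by_cases hS : Crosses S m
      · rw [if_pos hS, if_pos ((hcr' S).2 hS)]
        have e1 : a ∈ symmDiff S {b, m b} ↔ a ∈ S := by
          rw [hm]
          have : ¬ (a = b ∨ a = m b) := by
            rintro (h' | h')
            · exact hab h'
            · exact hmb h'.symm
          tauto
        have e2 : b ∈ symmDiff S {b, m b} ↔ b ∉ S := by
          rw [hm]
          tauto
        by_cases h3 : (a ∈ S ↔ b ∉ S)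
        · rw [if_pos h3, if_neg (by rw [e1, e2]; tauto)]
          norm_num
        · rw [if_neg h3, if_pos (by rw [e1, e2]; tauto)]
          norm_num
      · rw [if_neg hS, if_neg (fun h' => hS ((hcr' S).1 h'))]
        norm_num
    · intro S _ _ h'
      have : b ∈ symmDiff S {b, m b} ↔ b ∉ S := by
        rw [hm]
        tauto
      rw [h'] at this
      tauto
    · intro S _
      exact mem_univ _
    · intro S _
      exact hinvol S

theorem linear_aux (j : ℕ) (lam : Finset (Term k) → ℤ)
    (h : ∀ m : Term k → Term k, (∀ a, m a ≠ a) → (∀ a, m (m a) = a) →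
      (∑ S : Finset (Term k), if Crosses S m then lam S else 0)
        = if (∀ i : Fin k, (i : ℕ) < j → m (i, false) = (i, true)) then 2 ^ k else 0)
    (X : Inst k) (W : ℕ) :
    2 ^ k * (prescribed X j W : ℤ) = ∑ S, lam S * (sourceSink X S W : ℤ) := by
  have := finite_linkage X
  let _ : Fintype (Linkage X.G X.T) := Fintype.ofFinite _
  have e1 : ∀ S, (sourceSink X S W : ℤ) =
      ∑ L : Linkage X.G X.T, if L.weight2 X.c = W then (if Crosses S L.mate then 1 else 0)
        else 0 := by
    intro S
    unfold sourceSink
    rw [Nat.card_eq_fintype_card, Fintype.card_subtype, card_filter, Nat.cast_sum]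
    refine sum_congr rfl fun L _ => ?_
    by_cases h1 : L.weight2 X.c = W <;> by_cases h2 : Crosses S L.mate <;> simp [h1, h2]
  have e2 : (prescribed X j W : ℤ) =
      ∑ L : Linkage X.G X.T, if L.weight2 X.c = W then
        (if (∀ i : Fin k, (i : ℕ) < j → L.mate (i, false) = (i, true)) then 1 else 0)
        else 0 := by
    unfold prescribed
    rw [Nat.card_eq_fintype_card, Fintype.card_subtype, card_filter, Nat.cast_sum]
    refine sum_congr rfl fun L _ => ?_
    by_cases h1 : L.weight2 X.c = W <;>
      by_cases h2 : (∀ i : Fin k, (i : ℕ) < j → L.mate (i, false) = (i, true)) <;> simp [h1, h2]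
  rw [e2, mul_sum]
  simp_rw [e1, mul_sum]
  rw [sum_comm]
  refine sum_congr rfl fun L _ => ?_
  by_cases h1 : L.weight2 X.c = W
  · simp only [h1, if_true]
    have h2 := h L.mate L.mate_ne L.mate_mate
    rw [mul_ite, mul_one, mul_zero, ← h2]
    refine sum_congr rfl fun S _ => ?_
    by_cases h3 : Crosses S L.mate <;> simp [h3]
  · simp [h1]

theorem linear_zero (k : ℕ) : LinearlyDetermined k 0 := by
  refine ⟨fun _ => 1, fun _ => Or.inl rfl, linear_aux 0 _ ?_⟩
  intro m hne hinv
  have hc : (2 : ℤ) ^ k = ((univ.filter (fun S : Finset (Term k) => Crosses S m)).card : ℤ) := by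
    rw [cross_card m hne hinv]; push_cast; rfl
  rw [if_pos (by intro i hi; exact absurd hi (Nat.not_lt_zero _)), hc, card_filter,
    Nat.cast_sum]
  refine sum_congr rfl fun S _ => ?_
  by_cases h : Crosses S m <;> simp [h]

theorem linear_one (k : ℕ) (hk : 0 < k) : LinearlyDetermined k 1 := by
  refine ⟨fun S => if ((⟨0, hk⟩, false) ∈ S ↔ (⟨0, hk⟩, true) ∉ S) then 1 else -1, ?_,
    linear_aux 1 _ ?_⟩
  · intro S
    by_cases h : (((⟨0, hk⟩, false) : Term k) ∈ S ↔ ((⟨0, hk⟩, true) : Term k) ∉ S)
    · left; exact if_pos h
    · right; exact if_neg h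
  intro m hne hinv
  rw [signed_sum m hne hinv (⟨0, hk⟩, false) (⟨0, hk⟩, true) (by simp)]
  congr 1
  apply propext
  constructor
  · intro h i hi
    have : i = ⟨0, hk⟩ := Fin.ext (by simpa using hi)
    rw [this]; exact h
  · intro h
    exact h ⟨0, hk⟩ (by simp)

theorem linear_two : LinearlyDetermined 2 2 := by
  obtain ⟨lam, h1, h2⟩ := linear_one 2 (by norm_num)
  refine ⟨lam, h1, fun X W => ?_⟩
  rw [← h2 X W]
  congr 2
  unfold prescribed
  refine Nat.card_congr (Equiv.subtypeEquivRight ?_)
  intro L
  refine and_congr_left fun _ => ?_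
  constructor
  · intro h i hi
    exact h i (by omega)
  · intro h i hi
    have h0 : L.mate (0, false) = (0, true) := h 0 (by norm_num)
    have h0' : L.mate (0, true) = (0, false) := by rw [← h0, L.mate_mate]
    fin_cases i
    · exact h0
    · have hne := L.mate_ne ((1 : Fin 2), false)
      have hinv := L.mate_mate ((1 : Fin 2), false)
      change L.mate (1, false) = (1, true)
      rcases hm : L.mate ((1 : Fin 2), false) with ⟨i, b⟩
      rw [hm] at hne hinv
      fin_cases i <;> cases b
      · simp only [Fin.zero_eta, Fin.isValue] at hinv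
        rw [h0] at hinv
        simp at hinv
      · simp only [Fin.zero_eta, Fin.isValue] at hinv
        rw [h0'] at hinv
        simp at hinv
      · exact absurd rfl hne
      · rfl

end Pool.Agent.SSK
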