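import Pool.Agent.Lib_MP_72f673_lc.Neg
import Pool.Agent.Lib_MP_72f673_lc.Pos

set_option autoImplicit false

/-!
The two instances for all `k ≥ 3`.
-/

namespace Pool.Agent.SSK

open Finset Classical

variable {k : ℕ}

def NN (t : Term k → ℕ) (a : Term k) (v : Fin k) : Prop :=
  if (a.1 : ℕ) < 3 then ((v : ℕ) < 3 ∧ (v : ℕ) ≠ t a) else v = a.1

theorem lift_card (hk : 3 ≤ k) (t : Term k → ℕ) (t3 : Term 3 → ℕ)
    (ht : ∀ (a : Term k) (h : (a.1 : ℕ) < 3), t a = t3 (⟨a.1, h⟩, a.2)) (S : Finset (Term k)) :
    Nat.card {g : Term k → Fin k // QQ (NN t) S g} =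
      if (∀ i : Fin k, 3 ≤ (i : ℕ) → ((i, false) ∈ S ↔ (i, true) ∉ S)) then
        Nat.card {psi : Term 3 → Fin 3 //
          Q3 t3 (fun a => decide ((Fin.castLE hk a.1, a.2) ∈ S)) psi}
      else 0 := by
  split_ifs with hc
  swap
  · rw [Nat.card_eq_zero]
    left
    constructor
    rintro ⟨g, hg⟩
    apply hc
    intro i hi
    have h1 : ∀ b, g (i, b) = i := by
      intro b
      have := hg.1 (i, b)
      unfold NN at this
      rwa [if_neg (by simpa using hi)] at this
    exact hg.2 (i, false) (i, true) (by simp) (by rw [h1, h1])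
  · symm
    let e : (Term 3 → Fin 3) → (Term k → Fin k) := fun psi a =>
      if h : (a.1 : ℕ) < 3 then Fin.castLE hk (psi (⟨a.1, h⟩, a.2)) else a.1
    have e_lt : ∀ psi (a : Term k) (h : (a.1 : ℕ) < 3),
        e psi a = Fin.castLE hk (psi (⟨a.1, h⟩, a.2)) := fun psi a h => dif_pos h
    have e_ge : ∀ psi (a : Term k), ¬ (a.1 : ℕ) < 3 → e psi a = a.1 := fun psi a h => dif_neg h
    have hQ : ∀ psi : Term 3 → Fin 3,
        Q3 t3 (fun a => decide ((Fin.castLE hk a.1, a.2) ∈ S)) psi → QQ (NN t) S (e psi) := by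
      intro psi hpsi
      refine ⟨fun a => ?_, fun a b hab h => ?_⟩
      · unfold NN
        split_ifs with h
        · rw [e_lt psi a h]
          refine ⟨(psi _).2, ?_⟩
          rw [ht a h]
          exact hpsi.1 _
        · exact e_ge psi a h
      · by_cases ha : (a.1 : ℕ) < 3 <;> by_cases hb : (b.1 : ℕ) < 3
        · rw [e_lt psi a ha, e_lt psi b hb] at h
          have h1 : psi (⟨a.1, ha⟩, a.2) = psi (⟨b.1, hb⟩, b.2) := Fin.castLE_injective hk h
          have hne : ((⟨a.1, ha⟩, a.2) : Term 3) ≠ (⟨b.1, hb⟩, b.2) := by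
            intro h'
            apply hab
            have h2 := congrArg (fun x : Term 3 => (x.1 : ℕ)) h'
            have h3 := congrArg Prod.snd h'
            exact Prod.ext (Fin.ext h2) h3
          have h4 := hpsi.2 _ _ hne h1
          have ea : ((Fin.castLE hk (⟨a.1, ha⟩ : Fin 3), a.2) : Term k) = a := rfl
          have eb : ((Fin.castLE hk (⟨b.1, hb⟩ : Fin 3), b.2) : Term k) = b := rfl
          simp only [ea, eb] at h4
          have h4' : ¬ ((a ∈ S) ↔ (b ∈ S)) := fun hh => h4 (decide_eq_decide.2 hh)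
          tauto
        · exfalso
          rw [e_lt psi a ha, e_ge psi b hb] at h
          have := congrArg Fin.val h
          have h7 := (psi (⟨a.1, ha⟩, a.2)).2
          simp only [Fin.val_castLE] at this
          omega
        · exfalso
          rw [e_ge psi a ha, e_lt psi b hb] at h
          have := congrArg Fin.val h
          have h7 := (psi (⟨b.1, hb⟩, b.2)).2
          simp only [Fin.val_castLE] at this
          omega
        · rw [e_ge psi a ha, e_ge psi b hb] at h
          obtain ⟨i, x⟩ := a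
          obtain ⟨i', y⟩ := b
          simp only at h ha
          subst h
          have := hc i (by omega)
          cases x <;> cases y
          · exact absurd rfl hab
          · exact this
          · tauto
          · exact absurd rfl hab
    refine Nat.card_congr (Equiv.ofBijective (fun p => ⟨e p.1, hQ p.1 p.2⟩) ⟨?_, ?_⟩)
    · rintro ⟨p, hp⟩ ⟨q, hq⟩ h
      have h0 : e p = e q := congrArg Subtype.val h
      apply Subtype.ext
      funext x
      have h1 := congrFun h0 (Fin.castLE hk x.1, x.2)
      rw [e_lt p _ x.1.2, e_lt q _ x.1.2] at h1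
      exact Fin.castLE_injective hk h1
    · rintro ⟨g, hg⟩
      have hlt : ∀ x : Term 3, (g (Fin.castLE hk x.1, x.2) : ℕ) < 3 ∧
          (g (Fin.castLE hk x.1, x.2) : ℕ) ≠ t3 x := by
        intro x
        have := hg.1 (Fin.castLE hk x.1, x.2)
        unfold NN at this
        have hx : (((Fin.castLE hk x.1, x.2) : Term k).1 : ℕ) < 3 := x.1.2
        rw [if_pos hx, ht _ hx] at this
        exact this
      have hge : ∀ a : Term k, ¬ (a.1 : ℕ) < 3 → g a = a.1 := by
        intro a h
        have := hg.1 a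
        unfold NN at this
        rwa [if_neg h] at this
      refine ⟨⟨fun x => ⟨g (Fin.castLE hk x.1, x.2), (hlt x).1⟩, ?_, ?_⟩, ?_⟩
      · intro x
        exact (hlt x).2
      · intro x y hxy h
        have h1 : g (Fin.castLE hk x.1, x.2) = g (Fin.castLE hk y.1, y.2) :=
          Fin.ext (by have h9 := congrArg Fin.val h; exact h9)
        have hne : ((Fin.castLE hk x.1, x.2) : Term k) ≠ (Fin.castLE hk y.1, y.2) := by
          intro h'
          apply hxy
          have h2 := Fin.castLE_injective hk (congrArg Prod.fst h')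
          have h3 := congrArg Prod.snd h'
          exact Prod.ext h2 h3
        have h2 := hg.2 _ _ hne h1
        intro h3
        have h4 : (((Fin.castLE hk x.1, x.2) : Term k) ∈ S) ↔
          (((Fin.castLE hk y.1, y.2) : Term k) ∈ S) := decide_eq_decide.1 h3
        tauto
      · apply Subtype.ext
        funext a
        change e _ a = g a
        by_cases h : (a.1 : ℕ) < 3
        · rw [e_lt _ a h]
          exact Fin.ext rfl
        · rw [e_ge _ a h, hge a h]

theorem counts_eq (hk : 3 ≤ k) (S : Finset (Term k)) (W : ℕ) :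
    sourceSink (BI (NN (ex1 (k := k)))) S W = sourceSink (BI (NN (ex2 (k := k)))) S W := by
  rw [sourceSink_BI, sourceSink_BI, lift_card hk ex1 ex1 (fun a h => rfl) S,
    lift_card hk ex2 ex2 (fun a h => rfl) S]
  have h := cnt3 (fun a => decide ((Fin.castLE hk a.1, a.2) ∈ S))
  have e1 : ∀ t : Term 3 → ℕ, Nat.card {psi : Term 3 → Fin 3 //
      Q3 t (fun a => decide ((Fin.castLE hk a.1, a.2) ∈ S)) psi} =
      (Finset.univ.filter (fun psi =>
        Q3 t (fun a => decide ((Fin.castLE hk a.1, a.2) ∈ S)) psi)).card := by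
    intro t
    rw [Nat.card_eq_fintype_card, Fintype.card_subtype]
  rw [e1, e1]
  have h' : (Finset.univ.filter (fun psi =>
        Q3 ex1 (fun a => decide ((Fin.castLE hk a.1, a.2) ∈ S)) psi)).card =
      (Finset.univ.filter (fun psi =>
        Q3 ex2 (fun a => decide ((Fin.castLE hk a.1, a.2) ∈ S)) psi)).card := by
    convert h
  rw [h']

theorem prescribed_one (hk : 3 ≤ k) (j : ℕ) :
    prescribed (BI (NN (ex1 (k := k)))) j (4 * k) ≠ 0 := by
  have hfin := finite_linkage (BI (NN (ex1 (k := k))))
  have hfin2 : Finite {L : Linkage (BI (NN (ex1 (k := k)))).G (BI (NN (ex1 (k := k)))).T //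
    (∀ i : Fin k, (i : ℕ) < j → L.mate (i, false) = (i, true)) ∧
      L.weight2 (BI (NN (ex1 (k := k)))).c = 4 * k} := inferInstance
  let s : Fin k → Fin k := fun i =>
    if (i : ℕ) = 0 then ⟨1, by omega⟩ else if (i : ℕ) = 1 then ⟨2, by omega⟩
      else if (i : ℕ) = 2 then ⟨0, by omega⟩ else i
  have s_inj : ∀ i i' : Fin k, s i = s i' → i = i' := by
    intro i i' h
    have h1 := congrArg Fin.val h
    apply Fin.ext
    simp only [s] at h1
    split_ifs at h1 <;> (try simp only at h1) <;> omega
  let L : Linkage (Bip (NN (ex1 (k := k)))) (Sum.inl : Term k → Term k ⊕ Fin k) :=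
    mk (fun a => (a.1, !a.2)) (fun a => s a.1)
      (by rintro ⟨i, b⟩; simp)
      (by rintro ⟨i, b⟩; simp)
      (by
        rintro ⟨i, b⟩
        unfold NN ex1
        simp only [s]
        split_ifs <;> simp_all <;> omega)
      (by intro a; rfl)
      (by
        rintro ⟨i, b⟩ ⟨i', b'⟩ h
        have := s_inj _ _ h
        simp only at this
        subst this
        cases b <;> cases b' <;> simp)
  have : Nonempty {L : Linkage (BI (NN (ex1 (k := k)))).G (BI (NN (ex1 (k := k)))).T //
    (∀ i : Fin k, (i : ℕ) < j → L.mate (i, false) = (i, true)) ∧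
      L.weight2 (BI (NN (ex1 (k := k)))).c = 4 * k} :=
    ⟨⟨L, fun i _ => rfl, weight_const L⟩⟩
  exact Nat.card_pos.ne'

theorem aux012 (c : ℕ) (h : c < 3) (h0 : c ≠ 0) (h1 : c ≠ 1) : c = 2 := by omega

theorem prescribed_two (hk : 3 ≤ k) (j : ℕ) (hj : 2 ≤ j) (W : ℕ) :
    prescribed (BI (NN (ex2 (k := k)))) j W = 0 := by
  unfold prescribed
  rw [Nat.card_eq_zero]
  left
  constructor
  rintro ⟨L, hL, -⟩
  let M : Linkage (Bip (NN (ex2 (k := k)))) (Sum.inl : Term k → Term k ⊕ Fin k) := L
  obtain ⟨i0, hi0⟩ : ∃ i : Fin k, (i : ℕ) = 0 := ⟨⟨0, by omega⟩, rfl⟩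
  obtain ⟨i1, hi1⟩ : ∃ i : Fin k, (i : ℕ) = 1 := ⟨⟨1, by omega⟩, rfl⟩
  have h01 : i1 ≠ i0 := by rintro rfl; omega
  have h0 : M.mate (i0, false) = (i0, true) := hL i0 (by omega)
  have h1 : M.mate (i1, false) = (i1, true) := hL i1 (by omega)
  have a0 := mid_spec M (i0, false)
  have a1 := mid_spec M (i1, false)
  rw [h0] at a0
  rw [h1] at a1
  have e0 : (mid M (i0, false) : ℕ) = 2 := by
    have x := a0.1
    have y := a0.2.1
    unfold NN at x y
    rw [if_pos (by simp only [hi0]; norm_num)] at x y
    have hx : ex2 (i0, false) = 0 := by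
      unfold ex2
      rw [if_pos (by simp only [hi0]; norm_num)]
      rfl
    have hy : ex2 (i0, true) = 1 := by
      unfold ex2
      rw [if_pos (by simp only [hi0]; norm_num)]
      rfl
    rw [hx] at x
    rw [hy] at y
    exact aux012 _ x.1 x.2 y.2
  have e1 : (mid M (i1, false) : ℕ) = 2 := by
    have x := a1.1
    have y := a1.2.1
    unfold NN at x y
    rw [if_pos (by simp only [hi1]; norm_num)] at x y
    have hx : ex2 (i1, false) = 0 := by
      unfold ex2
      rw [if_pos (by simp only [hi1]; norm_num)]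
      rfl
    have hy : ex2 (i1, true) = 1 := by
      unfold ex2
      rw [if_pos (by simp only [hi1]; norm_num)]
      rfl
    rw [hx] at x
    rw [hy] at y
    exact aux012 _ x.1 x.2 y.2
  have := mid_eq M (i0, false) (i1, false) (by simp [h01]) (Fin.ext (e0.trans e1.symm))
  rw [h0] at this
  simp [h01] at this

end Pool.Agent.SSK
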