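import Pool.Agent.Lib_MP_72f673_lc.Defs
import Pool.Agent.Lib_MP_72f673_lc.Count3

set_option autoImplicit false

/-!
Two instances with equal source-sink counts; one of them has a linkage with the prescribed pairs.
-/

namespace Pool.Agent.SSK

open Finset Classical

variable {k : ℕ}

/-- bipartite graph between terminals and middle vertices -/
def Bip (N : Term k → Fin k → Prop) : SimpleGraph (Term k ⊕ Fin k) where
  Adj x y := match x, y with
    | .inl a, .inr v => N a v
    | .inr v, .inl a => N a v
    | _, _ => False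
  symm := ⟨by rintro (a | v) (b | w) h <;> exact h⟩
  loopless := ⟨by rintro (a | v) h <;> exact h⟩

noncomputable def BI (N : Term k → Fin k → Prop) : Inst k where
  V := Term k ⊕ Fin k
  fin := inferInstance
  G := Bip N
  c := fun _ => 1
  T := Sum.inl
  inj := Sum.inl_injective

variable {N : Term k → Fin k → Prop}

theorem path_form (L : Linkage (Bip N) (Sum.inl : Term k → Term k ⊕ Fin k)) (a : Term k) :
    ∃ v, N a v ∧ N (L.mate a) v ∧ L.path a = [Sum.inl a, Sum.inr v, Sum.inl (L.mate a)] := by
  have hh := L.head a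
  have hl := L.last a
  have hc := L.chain a
  have hn := L.nodup a
  rcases hp : L.path a with _ | ⟨x, l⟩
  · rw [hp] at hh; simp at hh
  rw [hp] at hh hl hc hn
  have hx : x = Sum.inl a := by simpa using hh
  subst hx
  rcases l with _ | ⟨y, l⟩
  · have : (Sum.inl a : Term k ⊕ Fin k) = Sum.inl (L.mate a) := by simpa using hl
    exact absurd (Sum.inl_injective this).symm (L.mate_ne a)
  rcases y with b | v
  · have : (Bip N).Adj (Sum.inl a) (Sum.inl b) := (List.isChain_cons_cons.1 hc).1
    exact absurd this (fun h => h)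
  have h1 : N a v := (List.isChain_cons_cons.1 hc).1
  have hc2 := (List.isChain_cons_cons.1 hc).2
  rcases l with _ | ⟨z, l⟩
  · have : (Sum.inr v : Term k ⊕ Fin k) = Sum.inl (L.mate a) := by simpa using hl
    exact absurd this (by simp)
  rcases z with b | w
  swap
  · have : (Bip N).Adj (Sum.inr v) (Sum.inr w) := (List.isChain_cons_cons.1 hc2).1
    exact absurd this (fun h => h)
  have h2 : N b v := (List.isChain_cons_cons.1 hc2).1
  have hba : b ≠ a := by
    rintro rfl
    simp at hn
  have hbm : b = L.mate a := by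
    by_contra hne
    have := L.disj a b hba hne
    refine this (a := Sum.inl b) ?_ ?_
    · rw [hp]; simp
    · exact List.mem_of_mem_head? (by rw [L.head b]; simp)
  subst hbm
  have hl' : l = [] := by
    rcases l with _ | ⟨w, l⟩
    · rfl
    · exfalso
      have h3 : (Sum.inl (L.mate a) : Term k ⊕ Fin k) ∈ (w :: l) := by
        have : (w :: l).getLast? = some (Sum.inl (L.mate a)) := by
          rw [← hl]
          simp [List.getLast?_cons_cons]
        exact List.mem_of_mem_getLast? (by rw [this]; simp)
      have h4 := (List.nodup_cons.1 (List.nodup_cons.1 (List.nodup_cons.1 hn).2).2).1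
      exact h4 h3
  subst hl'
  exact ⟨v, h1, h2, rfl⟩

noncomputable def mid (L : Linkage (Bip N) (Sum.inl : Term k → Term k ⊕ Fin k)) (a : Term k) :
    Fin k := (path_form L a).choose

theorem mid_spec (L : Linkage (Bip N) (Sum.inl : Term k → Term k ⊕ Fin k)) (a : Term k) :
    N a (mid L a) ∧ N (L.mate a) (mid L a) ∧
      L.path a = [Sum.inl a, Sum.inr (mid L a), Sum.inl (L.mate a)] :=
  (path_form L a).choose_spec

theorem mid_mate (L : Linkage (Bip N) (Sum.inl : Term k → Term k ⊕ Fin k)) (a : Term k) :
    mid L (L.mate a) = mid L a := by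
  have h1 := (mid_spec L a).2.2
  have h2 := (mid_spec L (L.mate a)).2.2
  have h3 := L.rev a
  rw [h1, h2] at h3
  have h4 : mid L (L.mate a) = mid L a ∧ L.mate (L.mate a) = a := by simpa using h3
  exact h4.1

theorem mid_eq (L : Linkage (Bip N) (Sum.inl : Term k → Term k ⊕ Fin k)) (a b : Term k)
    (hab : b ≠ a) (h : mid L a = mid L b) : b = L.mate a := by
  by_contra hne
  have hdis := L.disj a b hab hne
  refine hdis (a := Sum.inr (mid L a)) ?_ ?_
  · rw [(mid_spec L a).2.2]; simp
  · rw [(mid_spec L b).2.2, h]; simp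

theorem weight_const (L : Linkage (Bip N) (Sum.inl : Term k → Term k ⊕ Fin k)) :
    L.weight2 (fun _ => 1) = 4 * k := by
  unfold Linkage.weight2
  have : ∀ a : Term k, pathWeight (fun _ => 1) (L.path a) = 2 := by
    intro a
    rw [(mid_spec L a).2.2]
    rfl
  rw [sum_congr rfl (fun a _ => this a)]
  simp [Term]
  ring

/-- build a linkage from middle vertices -/
def mk (m : Term k → Term k) (g : Term k → Fin k) (hne : ∀ a, m a ≠ a) (hinv : ∀ a, m (m a) = a)
    (hN : ∀ a, N a (g a)) (hg : ∀ a, g (m a) = g a) (hd : ∀ a b, g a = g b → b = a ∨ b = m a) :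
    Linkage (Bip N) (Sum.inl : Term k → Term k ⊕ Fin k) where
  mate := m
  path a := [Sum.inl a, Sum.inr (g a), Sum.inl (m a)]
  mate_ne := hne
  mate_mate := hinv
  chain a := by
    have h1 : (Bip N).Adj (Sum.inl a) (Sum.inr (g a)) := hN a
    have h2 : (Bip N).Adj (Sum.inr (g a)) (Sum.inl (m a)) := by
      have := hN (m a)
      rw [hg] at this
      exact this
    simp [h1, h2]
  nodup a := by
    have := hne a
    simp [Ne.symm this]
  head a := by simp
  last a := by simp
  rev a := by simp [hinv, hg]
  disj a b h1 h2 := by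
    have h3 : g a ≠ g b := by
      intro h
      rcases hd a b h with h' | h'
      · exact h1 h'
      · exact h2 h'
    have h4 : m b ≠ a := fun h => h2 (by rw [← h, hinv])
    have h5 : m b ≠ m a := fun h => h1 (by rw [← hinv b, h, hinv])
    have h6 := Ne.symm h1
    have h7 := Ne.symm h2
    have h8 := Ne.symm h4
    have h9 := Ne.symm h5
    have h10 := Ne.symm h3
    simp [h1, h2, h3, h4, h5, h6, h7, h8, h9, h10]

/-- condition on the middle vertices of a linkage crossing `S` -/
def QQ (N : Term k → Fin k → Prop) (S : Finset (Term k)) (g : Term k → Fin k) : Prop :=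
  (∀ a, N a (g a)) ∧ ∀ a b, a ≠ b → g a = g b → (a ∈ S ↔ b ∉ S)

theorem exists_partner (S : Finset (Term k)) (g : Term k → Fin k) (h : QQ N S g) (a : Term k) :
    ∃ b, b ≠ a ∧ g b = g a := by
  by_contra hcon
  push Not at hcon
  have h2 : ∀ v : Fin k, (univ.filter (fun a => g a = v)).card ≤ 2 := by
    intro v
    by_contra hlt
    push Not at hlt
    obtain ⟨x, y, z, hx, hy, hz, hxy, hxz, hyz⟩ := two_lt_card_iff.1 hlt
    simp only [mem_filter, mem_univ, true_and] at hx hy hz
    have e1 := h.2 x y hxy (hx.trans hy.symm)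
    have e2 := h.2 x z hxz (hx.trans hz.symm)
    have e3 := h.2 y z hyz (hy.trans hz.symm)
    tauto
  have h1 : (univ.filter (fun b => g b = g a)).card < 2 := by
    have : univ.filter (fun b => g b = g a) ⊆ {a} := by
      intro b hb
      simp only [mem_filter, mem_univ, true_and] at hb
      by_contra hba
      exact hcon b (by simpa using hba) hb
    have := card_le_card this
    simp at this
    omega
  have h3 : (univ : Finset (Term k)).card = ∑ v : Fin k, (univ.filter (fun a => g a = v)).card :=
    card_eq_sum_card_fiberwise (fun a _ => mem_coe.2 (mem_univ (g a)))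
  have h4 : ∑ v : Fin k, (univ.filter (fun a => g a = v)).card < ∑ v : Fin k, 2 :=
    sum_lt_sum (fun v _ => h2 v) ⟨g a, mem_univ _, h1⟩
  rw [← h3] at h4
  simp [Term] at h4

theorem card_cross (N : Term k → Fin k → Prop) (S : Finset (Term k)) :
    Nat.card {L : Linkage (Bip N) (Sum.inl : Term k → Term k ⊕ Fin k) // Crosses S L.mate}
      = Nat.card {g : Term k → Fin k // QQ N S g} := by
  refine Nat.card_congr (Equiv.ofBijective
    (fun L => ⟨mid L.1, fun a => (mid_spec L.1 a).1, fun a b hab h => ?_⟩) ⟨?_, ?_⟩)
  · have := mid_eq L.1 a b (Ne.symm hab) h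
    rw [this]
    exact L.2 a
  · rintro ⟨L, hL⟩ ⟨M, hM⟩ h
    have h0 : mid L = mid M := congrArg Subtype.val h
    have h1 : L.mate = M.mate := by
      funext a
      refine mid_eq M a (L.mate a) (L.mate_ne a) ?_
      rw [← h0, mid_mate]
    have h2 : L.path = M.path := by
      funext a
      rw [(mid_spec L a).2.2, (mid_spec M a).2.2, h0, h1]
    cases L
    cases M
    simp only at h1 h2
    subst h1
    subst h2
    rfl
  · rintro ⟨g, hg⟩
    choose m hm1 hm2 using exists_partner S g hg
    have huniq : ∀ a b, b ≠ a → g b = g a → b = m a := by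
      intro a b hba hgb
      by_contra hne
      have e1 := hg.2 a b (Ne.symm hba) hgb.symm
      have e2 := hg.2 a (m a) (Ne.symm (hm1 a)) (hm2 a).symm
      have e3 := hg.2 b (m a) hne (hgb.trans (hm2 a).symm)
      tauto
    have hinv : ∀ a, m (m a) = a := fun a =>
      (huniq (m a) a (Ne.symm (hm1 a)) (hm2 a).symm).symm
    have hd : ∀ a b, g a = g b → b = a ∨ b = m a := by
      intro a b h
      by_cases hba : b = a
      · exact Or.inl hba
      · exact Or.inr (huniq a b hba h.symm)
    refine ⟨⟨mk m g hm1 hinv hg.1 hm2 hd, ?_⟩, ?_⟩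
    · intro a
      exact hg.2 a (m a) (Ne.symm (hm1 a)) (hm2 a).symm
    · apply Subtype.ext
      funext a
      have h1 := (mid_spec (mk m g hm1 hinv hg.1 hm2 hd) a).2.2
      have h2 : (mk (N := N) m g hm1 hinv hg.1 hm2 hd).path a
        = [Sum.inl a, Sum.inr (g a), Sum.inl (m a)] := rfl
      rw [h2] at h1
      simp only [List.cons.injEq, Sum.inr.injEq] at h1
      exact h1.2.1.symm

theorem sourceSink_BI (N : Term k → Fin k → Prop) (S : Finset (Term k)) (W : ℕ) :
    sourceSink (BI N) S W = if W = 4 * k then Nat.card {g : Term k → Fin k // QQ N S g} else 0 := by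
  unfold sourceSink
  split_ifs with h
  · rw [← card_cross N S]
    refine Nat.card_congr (Equiv.subtypeEquivRight fun L => ?_)
    constructor
    · exact fun h' => h'.1
    · exact fun h' => ⟨h', by rw [h]; exact weight_const L⟩
  · rw [Nat.card_eq_zero]
    left
    constructor
    rintro ⟨L, hL⟩
    exact h (by rw [← hL.2]; exact weight_const L)

end Pool.Agent.SSK
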