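import Pool.Agent.Lib_MP_72f673_lc.Count4

set_option autoImplicit false

/-!
From the pruned evaluation to cardinalities.
-/

namespace Pool.Agent.SSK

theorem sum_mk8 {M : Type} [AddCommMonoid M] (F : (Term 4 → Bool) → M) :
    ∑ β, F β = ∑ b0, ∑ b1, ∑ b2, ∑ b3, ∑ b4, ∑ b5, ∑ b6, ∑ b7,
      F (mk8 b0 b1 b2 b3 b4 b5 b6 b7) := by
  let e : (Bool × Bool × Bool × Bool × Bool × Bool × Bool × Bool) ≃ (Term 4 → Bool) :=
    { toFun := fun p => mk8 p.1 p.2.1 p.2.2.1 p.2.2.2.1 p.2.2.2.2.1 p.2.2.2.2.2.1
        p.2.2.2.2.2.2.1 p.2.2.2.2.2.2.2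
      invFun := fun f => (f (0, false), f (0, true), f (1, false), f (1, true), f (2, false),
        f (2, true), f (3, false), f (3, true))
      left_inv := fun _ => rfl
      right_inv := fun f => mk8_eta f }
  rw [← e.sum_comp]
  simp only [Fintype.sum_prod_type]
  rfl

theorem flat_cons (nb : Term 4 → Bool → Fin 4) (S : Term 4 → Bool) (a : Term 4)
    (r : List (Bool × Fin 4 × Fin 4)) (l : List (Bool × Fin 4)) :
    flat (row nb S a :: r) l = ∑ b : Bool, flat r (l ++ [(S a, nb a b)]) := by
  rw [Fintype.sum_bool, add_comm]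
  rfl

theorem termList_nodup : termList.Nodup := by decide

theorem mem_termList (a : Term 4) : a ∈ termList := by
  obtain ⟨i, b⟩ := a
  fin_cases i <;> cases b <;> decide

theorem nodup_iff_good (S : Term 4 → Bool) (g : Term 4 → Fin 4) :
    (termList.map (fun a => (S a, g a))).Nodup ↔ good S g := by
  rw [List.nodup_map_iff_inj_on termList_nodup]
  constructor
  · intro h a b hab hg hS
    exact hab (h a (mem_termList a) b (mem_termList b) (Prod.ext hS hg))
  · intro h a _ b _ hab
    by_contra hne
    exact h a b hne (congrArg Prod.snd hab) (congrArg Prod.fst hab)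

theorem leaf_map (S : Term 4 → Bool) (g : Term 4 → Fin 4) :
    leaf (termList.map (fun a => (S a, g a))) =
      if Even (invg S g) then (1, 0) else (0, 1) := by
  have h1 : sOf (termList.map (fun a => (S a, g a))) = S := by
    funext a
    obtain ⟨i, b⟩ := a
    fin_cases i <;> cases b <;> rfl
  have h2 : gOf (termList.map (fun a => (S a, g a))) = g := by
    funext a
    obtain ⟨i, b⟩ := a
    fin_cases i <;> cases b <;> rfl
  unfold leaf
  rw [h1, h2]

theorem flat_tally (nb : Term 4 → Bool → Fin 4) (S : Term 4 → Bool) :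
    tally nb S = flat (rows nb S) [] := by
  unfold tally rows
  rw [sum_mk8]
  simp only [flat_cons]
  refine Finset.sum_congr rfl fun b0 _ => Finset.sum_congr rfl fun b1 _ =>
    Finset.sum_congr rfl fun b2 _ => Finset.sum_congr rfl fun b3 _ =>
    Finset.sum_congr rfl fun b4 _ => Finset.sum_congr rfl fun b5 _ =>
    Finset.sum_congr rfl fun b6 _ => Finset.sum_congr rfl fun b7 _ => ?_
  set g : Term 4 → Fin 4 := fun a => nb a (mk8 b0 b1 b2 b3 b4 b5 b6 b7 a) with hg
  have hl : ([] ++ [(S (0, false), nb (0, false) b0)] ++ [(S (0, true), nb (0, true) b1)] ++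
      [(S (1, false), nb (1, false) b2)] ++ [(S (1, true), nb (1, true) b3)] ++
      [(S (2, false), nb (2, false) b4)] ++ [(S (2, true), nb (2, true) b5)] ++
      [(S (3, false), nb (3, false) b6)] ++ [(S (3, true), nb (3, true) b7)] :
        List (Bool × Fin 4)) = termList.map (fun a => (S a, g a)) := rfl
  rw [hl]
  unfold flat
  rw [leaf_map]
  by_cases h : good S g
  · rw [if_pos h, if_pos ((nodup_iff_good S g).2 h)]
  · rw [if_neg h, if_neg (fun h' => h ((nodup_iff_good S g).1 h'))]

theorem tally_eq (S : Term 4 → Bool) : tally nbP S = tally nbQ S := by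
  rw [flat_tally, flat_tally, ← fast_eq _ _ List.nodup_nil, ← fast_eq _ _ List.nodup_nil]
  have := fast_tally (S (0, false)) (S (0, true)) (S (1, false)) (S (1, true)) (S (2, false))
    (S (2, true)) (S (3, false)) (S (3, true))
  rwa [mk8_eta] at this

theorem nbP_ne : ∀ a, nbP a false ≠ nbP a true := by decide

theorem nbQ_ne : ∀ a, nbQ a false ≠ nbQ a true := by decide

theorem tally_card (nb : Term 4 → Bool → Fin 4) (S : Term 4 → Bool) (e : Bool) :
    (Finset.univ.filter (fun β : Term 4 → Bool => good S (fun a => nb a (β a)) ∧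
      decide (Even (invg S (fun a => nb a (β a)))) = e)).card =
      if e then (tally nb S).1 else (tally nb S).2 := by
  unfold tally
  rw [Prod.fst_sum, Prod.snd_sum, Finset.card_filter]
  cases e
  · rw [if_neg (by simp)]
    refine Finset.sum_congr rfl fun β _ => ?_
    by_cases h1 : good S (fun a => nb a (β a))
    · by_cases h2 : Even (invg S (fun a => nb a (β a)))
      · have h3 : ¬ (good S (fun a => nb a (β a)) ∧
            decide (Even (invg S (fun a => nb a (β a)))) = false) := by
          intro h
          have h4 := h.2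
          rw [decide_eq_false_iff_not] at h4
          exact h4 h2
        rw [if_pos h1, if_pos h2, if_neg h3]
      · rw [if_pos h1, if_neg h2, if_pos ⟨h1, decide_eq_false_iff_not.2 h2⟩]
    · rw [if_neg h1, if_neg (fun h => h1 h.1)]
  · rw [if_pos rfl]
    refine Finset.sum_congr rfl fun β _ => ?_
    by_cases h1 : good S (fun a => nb a (β a))
    · by_cases h2 : Even (invg S (fun a => nb a (β a)))
      · rw [if_pos h1, if_pos h2, if_pos ⟨h1, decide_eq_true_iff.2 h2⟩]
      · have h3 : ¬ (good S (fun a => nb a (β a)) ∧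
            decide (Even (invg S (fun a => nb a (β a)))) = true) := by
          intro h
          exact h2 (decide_eq_true_iff.1 h.2)
        rw [if_pos h1, if_neg h2, if_neg h3]
    · rw [if_neg h1, if_neg (fun h => h1 h.1)]

theorem cnt4 (S : Term 4 → Bool) (e : Bool) :
    (Finset.univ.filter (fun β : Term 4 → Bool => good S (fun a => nbP a (β a)) ∧
      decide (Even (invg S (fun a => nbP a (β a)))) = e)).card =
    (Finset.univ.filter (fun β : Term 4 → Bool => good S (fun a => nbQ a (β a)) ∧
      decide (Even (invg S (fun a => nbQ a (β a)))) = e)).card := by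
  rw [tally_card, tally_card, tally_eq]

end Pool.Agent.SSK
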