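import Pool.Agent.Lib_MP_72f673_lc.Neg
import Pool.Agent.Lib_MP_72f673_lc.Pos
import Pool.Agent.Lib_MP_72f673_lc.Tally

set_option autoImplicit false

/-!
Two instances with equal signed source-sink counts, for all `k ≥ 4`.
-/

namespace Pool.Agent.SSK

open Finset Classical

variable {k : ℕ} {N : Term k → Fin k → Prop}

theorem partner_unique (S : Finset (Term k)) (g : Term k → Fin k) (hg : QQ N S g)
    (m : Term k → Term k) (hm : ∀ a, m a ≠ a ∧ g (m a) = g a) (a b : Term k) (hba : b ≠ a)
    (hgb : g b = g a) : b = m a := by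
  by_contra hne
  have e1 := hg.2 a b (Ne.symm hba) hgb.symm
  have e2 := hg.2 a (m a) (Ne.symm (hm a).1) (hm a).2.symm
  have e3 := hg.2 b (m a) hne (hgb.trans (hm a).2.symm)
  tauto

theorem card_cross_gen (N : Term k → Fin k → Prop) (S : Finset (Term k))
    (Φ : (Term k → Term k) → Prop) :
    Nat.card {L : Linkage (Bip N) (Sum.inl : Term k → Term k ⊕ Fin k) //
        Crosses S L.mate ∧ Φ L.mate}
      = Nat.card {g : Term k → Fin k // QQ N S g ∧
          ∃ m : Term k → Term k, (∀ a, m a ≠ a ∧ g (m a) = g a) ∧ Φ m} := by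
  refine Nat.card_congr (Equiv.ofBijective
    (fun L => ⟨mid L.1, ⟨fun a => (mid_spec L.1 a).1, fun a b hab h => ?_⟩,
      L.1.mate, fun a => ⟨L.1.mate_ne a, mid_mate L.1 a⟩, L.2.2⟩) ⟨?_, ?_⟩)
  · have := mid_eq L.1 a b (Ne.symm hab) h
    rw [this]
    exact L.2.1 a
  · rintro ⟨L, hL⟩ ⟨M, hM⟩ h
    have h0 : mid L = mid M := congrArg Subtype.val h
    have h1 : L.mate = M.mate := by
      funext a
      refine mid_eq M a (L.mate a) (L.mate_ne a) ?_
      rw [← h0, mid_mate]
    have h2 : L.path = M.path := by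
      funext a
      rw [(mid_spec L a).2.2, (mid_spec M a).2.2, h0, h1]
    cases L
    cases M
    simp only at h1 h2
    subst h1
    subst h2
    rfl
  · rintro ⟨g, hg, m, hm, hΦ⟩
    have huniq := partner_unique S g hg m hm
    have hinv : ∀ a, m (m a) = a := fun a =>
      (huniq (m a) a (Ne.symm (hm a).1) (hm a).2.symm).symm
    have hd : ∀ a b, g a = g b → b = a ∨ b = m a := by
      intro a b h
      by_cases hba : b = a
      · exact Or.inl hba
      · exact Or.inr (huniq a b hba h.symm)
    refine ⟨⟨mk m g (fun a => (hm a).1) hinv hg.1 (fun a => (hm a).2) hd, ?_, hΦ⟩, ?_⟩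
    · intro a
      exact hg.2 a (m a) (Ne.symm (hm a).1) (hm a).2.symm
    · apply Subtype.ext
      funext a
      have h1 := (mid_spec (mk m g (fun a => (hm a).1) hinv hg.1 (fun a => (hm a).2) hd) a).2.2
      have h2 : (mk (N := N) m g (fun a => (hm a).1) hinv hg.1 (fun a => (hm a).2) hd).path a
        = [Sum.inl a, Sum.inr (g a), Sum.inl (m a)] := rfl
      rw [h2] at h1
      simp only [List.cons.injEq, Sum.inr.injEq] at h1
      exact h1.2.1.symm

theorem signedCount_BI (N : Term k → Fin k → Prop) (S : Finset (Term k)) (e : Bool) (W : ℕ) :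
    signedCount (BI N) S e W = if W = 4 * k then
      Nat.card {g : Term k → Fin k // QQ N S g ∧ ∃ m : Term k → Term k,
        (∀ a, m a ≠ a ∧ g (m a) = g a) ∧ decide (Even (inversions S m)) = e} else 0 := by
  unfold signedCount
  split_ifs with h
  · rw [← card_cross_gen N S (fun m => decide (Even (inversions S m)) = e)]
    refine Nat.card_congr (Equiv.subtypeEquivRight fun L => ?_)
    constructor
    · exact fun h' => ⟨h'.1, h'.2.1⟩
    · exact fun h' => ⟨h'.1, h'.2, by rw [h]; exact weight_const L⟩
  · rw [Nat.card_eq_zero]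
    left
    constructor
    rintro ⟨L, hL⟩
    exact h (by rw [← hL.2.2]; exact weight_const L)

def NT (nb : Term 4 → Bool → Fin 4) (a : Term k) (v : Fin k) : Prop :=
  if h : (a.1 : ℕ) < 4 then ∃ x : Bool, (v : ℕ) = nb (⟨a.1, h⟩, a.2) x else v = a.1

/-- the embedding of the terminals -/
def io (hk : 4 ≤ k) (a : Term 4) : Term k := (Fin.castLE hk a.1, a.2)

theorem pos_io (hk : 4 ≤ k) (a : Term 4) : pos (io hk a) = pos a := rfl

theorem io_inj (hk : 4 ≤ k) (a b : Term 4) (h : io hk a = io hk b) : a = b := by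
  have h2 := Fin.castLE_injective hk (congrArg Prod.fst h)
  have h3 := congrArg Prod.snd h
  exact Prod.ext h2 h3

theorem io_surj (hk : 4 ≤ k) (a : Term k) (h : (a.1 : ℕ) < 4) : io hk (⟨a.1, h⟩, a.2) = a := rfl

theorem inv_eq (hk : 4 ≤ k) (S : Finset (Term k)) (g : Term k → Fin k)
    (hg : ∀ a b, a ≠ b → g a = g b → (a ∈ S ↔ b ∉ S))
    (hlt : ∀ a : Term 4, (g (io hk a) : ℕ) < 4) (hge : ∀ a : Term k, ¬ (a.1 : ℕ) < 4 → g a = a.1)
    (psi : Term 4 → Fin 4) (hpsi : ∀ a, (g (io hk a) : ℕ) = psi a)
    (m : Term k → Term k) (hm : ∀ a, m a ≠ a ∧ g (m a) = g a) :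
    inversions S m = invg (fun a => decide (io hk a ∈ S)) psi := by
  have huniq : ∀ a b, b ≠ a → g b = g a → b = m a :=
    partner_unique (N := fun _ _ => True) S g ⟨fun _ => trivial, hg⟩ m hm
  have geq : ∀ a b : Term 4, psi a = psi b ↔ g (io hk a) = g (io hk b) := by
    intro a b
    constructor
    · intro h
      exact Fin.ext (by rw [hpsi, hpsi, h])
    · intro h
      exact Fin.ext (by rw [← hpsi, ← hpsi, h])
  have small : ∀ a : Term k, (a.1 : ℕ) < 4 ↔ (g a : ℕ) < 4 := by
    intro a
    constructor
    · intro h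
      exact hlt (⟨a.1, h⟩, a.2)
    · intro h
      by_contra hcon
      rw [hge a hcon] at h
      exact hcon h
  have hpos : ∀ x y : Term k, pos x < pos y → (x.1 : ℕ) ≤ y.1 := by
    intro x y h
    unfold pos at h
    have u := Bool.toNat_le x.2
    have v := Bool.toNat_le y.2
    omega
  have hmlt : ∀ a : Term k, (a.1 : ℕ) < 4 → ((m a).1 : ℕ) < 4 := by
    intro a ha
    rw [small, (hm a).2, ← small]
    exact ha
  have hpar : ∀ a : Term 4, par psi a = pos (m (io hk a)) := by
    intro a
    have ha : ((io hk a).1 : ℕ) < 4 := a.1.2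
    have h1 := hmlt _ ha
    have h2 : io hk (⟨(m (io hk a)).1, h1⟩, (m (io hk a)).2) = m (io hk a) := rfl
    rw [par_eq psi a (⟨(m (io hk a)).1, h1⟩, (m (io hk a)).2)]
    · rfl
    · intro h
      apply (hm (io hk a)).1
      have := congrArg (io hk) h
      exact this
    · rw [geq, h2]
      exact (hm _).2
    · intro d hd1 hd2
      apply io_inj hk
      rw [h2]
      exact huniq _ _ (fun h => hd1 (io_inj hk _ _ h)) ((geq _ _).1 hd2)
  symm
  unfold inversions invg
  refine card_bij (fun p _ => (io hk p.1, io hk p.2)) ?_ ?_ ?_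
  · intro p hp
    simp only [mem_filter, mem_univ, true_and, decide_eq_true_eq] at hp
    obtain ⟨h1, h2, h3, h4⟩ := hp
    simp only [mem_filter, mem_product]
    refine ⟨⟨h1, h2⟩, h3, ?_⟩
    rw [← hpar, ← hpar]
    exact h4
  · intro p _ q _ h
    have h1 := io_inj hk _ _ (congrArg Prod.fst h)
    have h2 := io_inj hk _ _ (congrArg Prod.snd h)
    exact Prod.ext h1 h2
  · rintro ⟨a, b⟩ hab
    simp only [mem_filter, mem_product] at hab
    obtain ⟨⟨h1, h2⟩, h3, h4⟩ := hab
    have hab1 := hpos _ _ h3
    have hmab := hpos _ _ h4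
    have hb : (b.1 : ℕ) < 4 := by
      by_contra hb
      have gb := hge b hb
      have gmb : g (m b) = b.1 := by rw [(hm b).2, gb]
      have hmb1 : ¬ ((m b).1 : ℕ) < 4 := by
        rw [small, gmb]; exact hb
      have hmb2 : (m b).1 = b.1 := by rw [← hge _ hmb1, gmb]
      have hma1 : ¬ ((m a).1 : ℕ) < 4 := by
        rw [hmb2] at hmab
        omega
      have ha1 : ¬ (a.1 : ℕ) < 4 := by
        rw [small, ← (hm a).2, ← small]; exact hma1
      have hma2 : (m a).1 = a.1 := by rw [← hge _ hma1, (hm a).2, hge _ ha1]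
      have h5 : a.1 = b.1 := by
        apply Fin.ext
        rw [hmb2, hma2] at hmab
        omega
      have hne : a ≠ b := by rintro rfl; omega
      have := hg a b hne (by rw [hge _ ha1, gb, h5])
      tauto
    have ha : (a.1 : ℕ) < 4 := by omega
    refine ⟨((⟨a.1, ha⟩, a.2), (⟨b.1, hb⟩, b.2)), ?_, rfl⟩
    simp only [mem_filter, mem_univ, true_and, decide_eq_true_eq]
    refine ⟨h1, h2, h3, ?_⟩
    rw [hpar, hpar]
    exact h4

theorem lift_signed (hk : 4 ≤ k) (nb : Term 4 → Bool → Fin 4) (hnb : ∀ a, nb a false ≠ nb a true)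
    (S : Finset (Term k)) (e : Bool) :
    Nat.card {g : Term k → Fin k // QQ (NT nb) S g ∧ ∃ m : Term k → Term k,
        (∀ a, m a ≠ a ∧ g (m a) = g a) ∧ decide (Even (inversions S m)) = e} =
      if (∀ i : Fin k, 4 ≤ (i : ℕ) → ((i, false) ∈ S ↔ (i, true) ∉ S)) then
        Nat.card {β : Term 4 → Bool // good (fun a => decide (io hk a ∈ S)) (fun a => nb a (β a)) ∧
          decide (Even (invg (fun a => decide (io hk a ∈ S)) (fun a => nb a (β a)))) = e}
      else 0 := by
  split_ifs with hc
  swap
  · rw [Nat.card_eq_zero]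
    left
    constructor
    rintro ⟨g, hg, -⟩
    apply hc
    intro i hi
    have h1 : ∀ b, g (i, b) = i := by
      intro b
      have := hg.1 (i, b)
      unfold NT at this
      rwa [dif_neg (by simpa using hi)] at this
    exact hg.2 (i, false) (i, true) (by simp) (by rw [h1, h1])
  · symm
    let f : (Term 4 → Bool) → (Term k → Fin k) := fun β a =>
      if h : (a.1 : ℕ) < 4 then Fin.castLE hk (nb (⟨a.1, h⟩, a.2) (β (⟨a.1, h⟩, a.2))) else a.1
    have f_io : ∀ β (a : Term 4), f β (io hk a) = Fin.castLE hk (nb a (β a)) := by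
      intro β a
      have : ((io hk a).1 : ℕ) < 4 := a.1.2
      exact dif_pos this
    have f_ge : ∀ β (a : Term k), ¬ (a.1 : ℕ) < 4 → f β a = a.1 := fun β a h => dif_neg h
    have hQ : ∀ β : Term 4 → Bool,
        good (fun a => decide (io hk a ∈ S)) (fun a => nb a (β a)) → QQ (NT nb) S (f β) := by
      intro β hβ
      refine ⟨fun a => ?_, fun a b hab h => ?_⟩
      · unfold NT
        split_ifs with h
        · refine ⟨β (⟨a.1, h⟩, a.2), ?_⟩
          have := f_io β (⟨a.1, h⟩, a.2)
          rw [io_surj] at this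
          rw [this]
          rfl
        · exact f_ge β a h
      · by_cases ha : (a.1 : ℕ) < 4 <;> by_cases hb : (b.1 : ℕ) < 4
        · have e1 := f_io β (⟨a.1, ha⟩, a.2)
          have e2 := f_io β (⟨b.1, hb⟩, b.2)
          rw [io_surj] at e1 e2
          rw [e1, e2] at h
          have h1 := Fin.castLE_injective hk h
          have hne : ((⟨a.1, ha⟩, a.2) : Term 4) ≠ (⟨b.1, hb⟩, b.2) := by
            intro h'
            exact hab (congrArg (io hk) h')
          have h4 := hβ _ _ hne h1
          have h4' : ¬ ((a ∈ S) ↔ (b ∈ S)) := fun hh => h4 (decide_eq_decide.2 hh)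
          tauto
        · exfalso
          have e1 := f_io β (⟨a.1, ha⟩, a.2)
          rw [io_surj] at e1
          rw [e1, f_ge β b hb] at h
          have := congrArg Fin.val h
          have h7 := (nb (⟨a.1, ha⟩, a.2) (β (⟨a.1, ha⟩, a.2))).2
          simp only [Fin.val_castLE] at this
          omega
        · exfalso
          have e1 := f_io β (⟨b.1, hb⟩, b.2)
          rw [io_surj] at e1
          rw [f_ge β a ha, e1] at h
          have := congrArg Fin.val h
          have h7 := (nb (⟨b.1, hb⟩, b.2) (β (⟨b.1, hb⟩, b.2))).2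
          simp only [Fin.val_castLE] at this
          omega
        · rw [f_ge β a ha, f_ge β b hb] at h
          obtain ⟨i, x⟩ := a
          obtain ⟨i', y⟩ := b
          simp only at h ha
          subst h
          have := hc i (by omega)
          cases x <;> cases y
          · exact absurd rfl hab
          · exact this
          · tauto
          · exact absurd rfl hab
    have hinv : ∀ β (m : Term k → Term k), QQ (NT nb) S (f β) →
        (∀ a, m a ≠ a ∧ f β (m a) = f β a) →
        inversions S m = invg (fun a => decide (io hk a ∈ S)) (fun a => nb a (β a)) := by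
      intro β m hq hm
      refine inv_eq hk S (f β) hq.2 ?_ (f_ge β) (fun a => nb a (β a)) ?_ m hm
      · intro a
        rw [f_io]
        exact (nb a (β a)).2
      · intro a
        rw [f_io]
        rfl
    refine Nat.card_congr (Equiv.ofBijective (fun β => ⟨f β.1, hQ β.1 β.2.1, ?_⟩) ⟨?_, ?_⟩)
    · have hq := hQ β.1 β.2.1
      choose m hm1 hm2 using exists_partner S (f β.1) hq
      have hm : ∀ a, m a ≠ a ∧ f β.1 (m a) = f β.1 a := fun a => ⟨hm1 a, hm2 a⟩
      refine ⟨m, hm, ?_⟩
      rw [hinv β.1 m hq hm]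
      exact β.2.2
    · rintro ⟨p, hp⟩ ⟨q, hq⟩ h
      have h0 : f p = f q := congrArg Subtype.val h
      apply Subtype.ext
      funext x
      have h1 := congrFun h0 (io hk x)
      rw [f_io, f_io] at h1
      have h2 := Fin.castLE_injective hk h1
      have h3 := hnb x
      change p x = q x
      cases hp' : p x <;> cases hq' : q x
      · rfl
      · rw [hp', hq'] at h2
        exact absurd h2 h3
      · rw [hp', hq'] at h2
        exact absurd h2.symm h3
      · rfl
    · rintro ⟨g, hg, m, hm, hev⟩
      have h1 : ∀ x : Term 4, ∃ y : Bool, (g (io hk x) : ℕ) = nb x y := by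
        intro x
        have := hg.1 (io hk x)
        unfold NT at this
        have hx : ((io hk x).1 : ℕ) < 4 := x.1.2
        rw [dif_pos hx] at this
        exact this
      choose β hβ using h1
      have hge : ∀ a : Term k, ¬ (a.1 : ℕ) < 4 → g a = a.1 := by
        intro a h
        have := hg.1 a
        unfold NT at this
        rwa [dif_neg h] at this
      have hfg : f β = g := by
        funext a
        by_cases h : (a.1 : ℕ) < 4
        · have e1 := f_io β (⟨a.1, h⟩, a.2)
          have e2 := hβ (⟨a.1, h⟩, a.2)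
          rw [io_surj] at e1 e2
          rw [e1]
          exact Fin.ext e2.symm
        · rw [f_ge β a h, hge a h]
      have hgood : good (fun a => decide (io hk a ∈ S)) (fun a => nb a (β a)) := by
        intro x y hxy h
        have h1 : g (io hk x) = g (io hk y) := Fin.ext (by rw [hβ, hβ]; exact congrArg Fin.val h)
        have h2 := hg.2 _ _ (fun h' => hxy (io_inj hk _ _ h')) h1
        intro h3
        have h4 : (io hk x ∈ S) ↔ (io hk y ∈ S) := decide_eq_decide.1 h3
        tauto
      refine ⟨⟨β, hgood, ?_⟩, ?_⟩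
      · rw [← hinv β m (by rw [hfg]; exact hg) (by rw [hfg]; exact hm)]
        exact hev
      · apply Subtype.ext
        exact hfg

theorem signed_counts_eq (hk : 4 ≤ k) (S : Finset (Term k)) (e : Bool) (W : ℕ) :
    signedCount (BI (NT (k := k) nbP)) S e W = signedCount (BI (NT (k := k) nbQ)) S e W := by
  rw [signedCount_BI, signedCount_BI, lift_signed hk nbP nbP_ne S e, lift_signed hk nbQ nbQ_ne S e]
  have h := cnt4 (fun a => decide (io hk a ∈ S)) e
  have e1 : ∀ nb : Term 4 → Bool → Fin 4,
      Nat.card {β : Term 4 → Bool // good (fun a => decide (io hk a ∈ S)) (fun a => nb a (β a)) ∧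
          decide (Even (invg (fun a => decide (io hk a ∈ S)) (fun a => nb a (β a)))) = e} =
      (Finset.univ.filter (fun β : Term 4 → Bool =>
        good (fun a => decide (io hk a ∈ S)) (fun a => nb a (β a)) ∧
          decide (Even (invg (fun a => decide (io hk a ∈ S)) (fun a => nb a (β a)))) = e)).card := by
    intro nb
    rw [Nat.card_eq_fintype_card, Fintype.card_subtype]
  rw [e1, e1]
  have h' : (Finset.univ.filter (fun β : Term 4 → Bool =>
        good (fun a => decide (io hk a ∈ S)) (fun a => nbP a (β a)) ∧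
          decide (Even (invg (fun a => decide (io hk a ∈ S)) (fun a => nbP a (β a)))) = e)).card =
      (Finset.univ.filter (fun β : Term 4 → Bool =>
        good (fun a => decide (io hk a ∈ S)) (fun a => nbQ a (β a)) ∧
          decide (Even (invg (fun a => decide (io hk a ∈ S)) (fun a => nbQ a (β a)))) = e)).card := by
    convert h
  rw [h']

end Pool.Agent.SSK
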