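import Pool.Agent.Lib_MP_72f673_lc.DefsSigned
import Pool.Agent.Lib_MP_72f673_lc.Pos
import Pool.Agent.Lib_MP_72f673_lc.Ident3

set_option autoImplicit false

/-!
Linear formulas from the signed counts.
-/

namespace Pool.Agent.SSK

open Finset Classical

variable {k : ℕ}

theorem sourceSink_eq (X : Inst k) (S : Finset (Term k)) (W : ℕ) :
    sourceSink X S W = signedCount X S true W + signedCount X S false W := by
  have := finite_linkage X
  let _ : Fintype (Linkage X.G X.T) := Fintype.ofFinite _
  unfold sourceSink signedCount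
  simp only [Nat.card_eq_fintype_card, Fintype.card_subtype]
  rw [← card_union_of_disjoint]
  · congr 1
    ext L
    simp only [mem_filter, mem_univ, true_and, mem_union]
    cases h : decide (Even (inversions S L.mate)) <;> simp
  · rw [disjoint_left]
    intro L h1 h2
    simp only [mem_filter, mem_univ, true_and] at h1 h2
    rw [h1.2.1] at h2
    simp at h2

theorem signed_of_linear (k j : ℕ) (h : LinearlyDetermined k j) :
    SignedLinearlyDetermined k j := by
  obtain ⟨lam, -, h⟩ := h
  refine ⟨2 ^ k, by positivity, fun S _ => lam S, fun X W => ?_⟩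
  rw [h X W]
  refine sum_congr rfl fun S _ => ?_
  rw [sourceSink_eq, Fintype.sum_bool]
  push_cast
  ring

theorem signed_aux (j : ℕ) (N : ℤ) (lam : Finset (Term k) → Bool → ℤ)
    (h : ∀ m : Term k → Term k, (∀ a, m a ≠ a) → (∀ a, m (m a) = a) →
      (∑ S : Finset (Term k), if Crosses S m then lam S (decide (Even (inversions S m))) else 0)
        = if (∀ i : Fin k, (i : ℕ) < j → m (i, false) = (i, true)) then N else 0)
    (X : Inst k) (W : ℕ) :
    N * (prescribed X j W : ℤ) = ∑ S, ∑ e, lam S e * (signedCount X S e W : ℤ) := by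
  have := finite_linkage X
  let _ : Fintype (Linkage X.G X.T) := Fintype.ofFinite _
  have e1 : ∀ S e, (signedCount X S e W : ℤ) =
      ∑ L : Linkage X.G X.T, if L.weight2 X.c = W then
        (if Crosses S L.mate then (if decide (Even (inversions S L.mate)) = e then 1 else 0) else 0)
        else 0 := by
    intro S e
    unfold signedCount
    rw [Nat.card_eq_fintype_card, Fintype.card_subtype, card_filter, Nat.cast_sum]
    refine sum_congr rfl fun L _ => ?_
    by_cases h1 : L.weight2 X.c = W <;> by_cases h2 : Crosses S L.mate <;>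
      by_cases h3 : decide (Even (inversions S L.mate)) = e <;> simp [h1, h2, h3]
  have e2 : (prescribed X j W : ℤ) =
      ∑ L : Linkage X.G X.T, if L.weight2 X.c = W then
        (if (∀ i : Fin k, (i : ℕ) < j → L.mate (i, false) = (i, true)) then 1 else 0)
        else 0 := by
    unfold prescribed
    rw [Nat.card_eq_fintype_card, Fintype.card_subtype, card_filter, Nat.cast_sum]
    refine sum_congr rfl fun L _ => ?_
    by_cases h1 : L.weight2 X.c = W <;>
      by_cases h2 : (∀ i : Fin k, (i : ℕ) < j → L.mate (i, false) = (i, true)) <;> simp [h1, h2]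
  rw [e2, mul_sum]
  simp_rw [e1, mul_sum]
  have e3 : (∑ S : Finset (Term k), ∑ e : Bool, ∑ L : Linkage X.G X.T,
      lam S e * (if L.weight2 X.c = W then
        (if Crosses S L.mate then (if decide (Even (inversions S L.mate)) = e then (1 : ℤ) else 0)
          else 0) else 0)) =
      ∑ L : Linkage X.G X.T, ∑ S : Finset (Term k), ∑ e : Bool,
        lam S e * (if L.weight2 X.c = W then
        (if Crosses S L.mate then (if decide (Even (inversions S L.mate)) = e then (1 : ℤ) else 0)
          else 0) else 0) := by
    rw [sum_comm]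
    rw [sum_congr rfl (fun e _ => sum_comm)]
    rw [sum_comm]
    refine sum_congr rfl fun L _ => ?_
    rw [sum_comm]
  rw [e3]
  refine sum_congr rfl fun L _ => ?_
  by_cases h1 : L.weight2 X.c = W
  · simp only [h1, if_true]
    have h2 := h L.mate L.mate_ne L.mate_mate
    rw [mul_ite, mul_one, mul_zero, ← h2]
    refine sum_congr rfl fun S _ => ?_
    rw [Fintype.sum_bool]
    by_cases h3 : Crosses S L.mate
    · cases h4 : decide (Even (inversions S L.mate)) <;> simp [h3]
    · simp [h3]
  · simp [h1]

theorem signed_three (j : ℕ) (h2 : 2 ≤ j) (h3 : j ≤ 3) : SignedLinearlyDetermined 3 j := by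
  refine ⟨24, by norm_num, lam3, signed_aux j 24 lam3 ?_⟩
  intro m hne hinv
  obtain ⟨h4, h5⟩ := id3 m hne hinv
  have e1 : (∑ S : Finset (Term 3), if Crosses S m then
      lam3 S (decide (Even (inversions S m))) else 0) =
      ∑ S : Finset (Term 3), if (∀ a, a ∈ S ↔ m a ∉ S) then
        lam3 S (decide (Even (inversions S m))) else 0 := by
    refine sum_congr rfl fun S _ => ?_
    by_cases h : (∀ a, a ∈ S ↔ m a ∉ S)
    · rw [if_pos h, if_pos (show Crosses S m from h)]
    · rw [if_neg h, if_neg (show ¬ Crosses S m from h)]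
  rw [e1, h4]
  have e2 : (m (0, false) = (0, true) ∧ m (1, false) = (1, true)) ↔
      (∀ i : Fin 3, (i : ℕ) < j → m (i, false) = (i, true)) := by
    constructor
    · rintro ⟨a, b⟩ i hi
      fin_cases i
      · exact a
      · exact b
      · exact h5 a b
    · intro h
      exact ⟨h 0 (by simp; omega), h 1 (by simp; omega)⟩
  by_cases h : (m (0, false) = (0, true) ∧ m (1, false) = (1, true))
  · rw [if_pos h, if_pos (e2.1 h)]
  · rw [if_neg h, if_neg (fun h' => h (e2.2 h'))]

end Pool.Agent.SSK
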