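import Mathlib

set_option autoImplicit false

/-!
Paths as lists of vertices: shortcuts and their weights.
-/

namespace Pool.Agent.DLK

variable {V : Type}

/-- Weight of a path given as the list of its vertices. -/
def pathWeight (c : Sym2 V → ℕ) : List V → ℕ
  | [] => 0
  | [_] => 0
  | u :: v :: l => c s(u, v) + pathWeight c (v :: l)

theorem pw_append (c : Sym2 V → ℕ) (a b : V) (l2 : List V) : ∀ l1 : List V,
    pathWeight c (l1 ++ a :: b :: l2) = pathWeight c (l1 ++ [a]) + c s(a, b) +
      pathWeight c (b :: l2) := by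
  intro l1
  induction l1 with
  | nil => simp [pathWeight]
  | cons u l1 ih =>
    cases l1 with
    | nil => simp [pathWeight]; ring
    | cons v l1 =>
      simp only [List.cons_append, pathWeight] at ih ⊢
      rw [ih]
      ring

theorem pw_split (c : Sym2 V → ℕ) (a : V) (l2 : List V) : ∀ l1 : List V,
    pathWeight c (l1 ++ a :: l2) = pathWeight c (l1 ++ [a]) + pathWeight c (a :: l2) := by
  intro l1
  induction l1 with
  | nil => simp [pathWeight]
  | cons u l1 ih =>
    cases l1 with
    | nil => simp [pathWeight]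
    | cons v l1 =>
      simp only [List.cons_append, pathWeight] at ih ⊢
      rw [ih]
      ring

theorem pw_lower (G : SimpleGraph V) (c : Sym2 V → ℕ) (M : ℕ)
    (hM : ∀ u v, G.Adj u v → M ≤ c s(u, v)) (b : V) (l2 : List V) : ∀ l1 : List V, ∀ a : V,
    (a :: (l1 ++ b :: l2)).IsChain G.Adj →
    M * (l1.length + 1) + pathWeight c (b :: l2) ≤ pathWeight c (a :: (l1 ++ b :: l2)) := by
  intro l1
  induction l1 with
  | nil =>
    intro a h
    have h1 := hM a b (List.isChain_cons_cons.1 h).1
    simp only [List.nil_append, pathWeight, List.length_nil]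
    omega
  | cons u l1 ih =>
    intro a h
    simp only [List.cons_append] at h
    have h1 := hM a u (List.isChain_cons_cons.1 h).1
    have h2 := ih u (List.isChain_cons_cons.1 h).2
    simp only [List.cons_append, pathWeight, List.length_cons]
    have h3 : M * (l1.length + 1 + 1) = M * (l1.length + 1) + M := by ring
    rw [h3]
    omega

/-- splitting a list at two positions -/
theorem split_two (l : List V) (x y : Fin l.length) (h : x < y) :
    ∃ l1 l2 l3, l = l1 ++ l.get x :: (l2 ++ l.get y :: l3) ∧ l1.length = x ∧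
      l2.length + 1 = (y : ℕ) - x := by
  have hx := x.2
  have hy := y.2
  have hxy : (x : ℕ) < y := h
  refine ⟨l.take x, (l.drop (x + 1)).take (y - x - 1), l.drop (y + 1), ?_, ?_, ?_⟩
  · have e1 : l.drop x = l.get x :: l.drop (x + 1) := by
      rw [List.get_eq_getElem]
      exact List.drop_eq_getElem_cons hx
    have e2 : l.drop y = l.get y :: l.drop (y + 1) := by
      rw [List.get_eq_getElem]
      exact List.drop_eq_getElem_cons hy
    have e3 : (l.drop (x + 1)).drop (y - x - 1) = l.drop y := by
      rw [List.drop_drop]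
      congr 1
      omega
    rw [← e2, ← e3, List.take_append_drop, ← e1, List.take_append_drop]
  · rw [List.length_take]
    omega
  · rw [List.length_take, List.length_drop]
    omega

/-- Shortcut through a new vertex. -/
theorem surgery (G : SimpleGraph V) (c : Sym2 V → ℕ) (M R : ℕ)
    (hM : ∀ u v, G.Adj u v → M ≤ c s(u, v)) (hR : ∀ u v, G.Adj u v → c s(u, v) ≤ R)
    (l : List V) (hc : l.IsChain G.Adj) (hn : l.Nodup) (x y : Fin l.length) (h : x < y)
    (w : V) (hw : w ∉ l) (h1 : G.Adj (l.get x) w) (h2 : G.Adj w (l.get y)) :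
    ∃ l' : List V, l'.IsChain G.Adj ∧ l'.Nodup ∧ l'.head? = l.head? ∧
      l'.getLast? = l.getLast? ∧ (∀ v ∈ l', v = w ∨ ∃ z : Fin l.length, (z ≤ x ∨ y ≤ z) ∧
        l.get z = v) ∧ pathWeight c l' + M * (y - x) ≤ pathWeight c l + 2 * R := by
  obtain ⟨l1, l2, l3, hl, hl1, hl2⟩ := split_two l x y h
  set a := l.get x with ha
  set b := l.get y with hb
  have hc' := hc
  rw [hl] at hc'
  have hcA : (l1 ++ [a]).IsChain G.Adj := by
    have : (l1 ++ a :: (l2 ++ b :: l3)) = (l1 ++ [a]) ++ (l2 ++ b :: l3) := by simp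
    rw [this] at hc'
    exact (List.isChain_append.1 hc').1
  have hcB : (b :: l3).IsChain G.Adj := by
    have : (l1 ++ a :: (l2 ++ b :: l3)) = (l1 ++ a :: l2) ++ (b :: l3) := by simp
    rw [this] at hc'
    exact (List.isChain_append.1 hc').2.1
  have hcC : (a :: (l2 ++ b :: l3)).IsChain G.Adj := (List.isChain_append.1 hc').2.1
  have hsub : (l1 ++ a :: (b :: l3)).Sublist l := by
    rw [hl]
    exact List.Sublist.append_left (List.Sublist.cons_cons a (List.sublist_append_right _ _)) l1
  have hnd : (l1 ++ a :: (b :: l3)).Nodup := List.Nodup.sublist hsub hn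
  have hwn : w ∉ l1 ++ a :: (b :: l3) := fun h' => hw (hsub.subset h')
  refine ⟨l1 ++ a :: w :: b :: l3, ?_, ?_, ?_, ?_, ?_, ?_⟩
  · have : l1 ++ a :: w :: b :: l3 = (l1 ++ [a]) ++ (w :: b :: l3) := by simp
    rw [this, List.isChain_append]
    refine ⟨hcA, List.isChain_cons_cons.2 ⟨h2, hcB⟩, ?_⟩
    intro u hu v hv
    simp at hu hv
    rw [← hu, ← hv]
    exact h1
  · have : (l1 ++ a :: w :: b :: l3).Perm (w :: (l1 ++ a :: (b :: l3))) := by
      have e1 : l1 ++ a :: w :: b :: l3 = (l1 ++ [a]) ++ w :: (b :: l3) := by simp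
      have e2 : l1 ++ a :: (b :: l3) = (l1 ++ [a]) ++ (b :: l3) := by simp
      rw [e1, e2]
      exact List.perm_middle
    rw [this.nodup_iff, List.nodup_cons]
    exact ⟨hwn, hnd⟩
  · rw [hl]
    cases l1 <;> simp
  · rw [hl]
    simp [List.getLast?_append, List.getLast?_cons_cons, List.getLast?_cons]
  · intro v hv
    have hv' : v = w ∨ v ∈ l1 ++ [a] ∨ v ∈ b :: l3 := by
      simp only [List.mem_append, List.mem_cons, List.not_mem_nil, or_false] at hv ⊢
      tauto
    rcases hv' with hv' | hv' | hv'
    · exact Or.inl hv'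
    · right
      obtain ⟨z, hz, hz'⟩ := List.mem_iff_getElem.1 hv'
      have hz1 : z < l1.length + 1 := by simpa using hz
      have hzl : z < l.length := by
        have := x.2
        omega
      refine ⟨⟨z, hzl⟩, Or.inl ?_, ?_⟩
      · show z ≤ x
        omega
      · rw [List.get_eq_getElem, ← hz']
        have e : l = (l1 ++ [a]) ++ (l2 ++ b :: l3) := by
          conv_lhs => rw [hl]
          simp
        have : l[z]'hzl = ((l1 ++ [a]) ++ (l2 ++ b :: l3))[z]'(by rw [← e]; exact hzl) := by
          congr 1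
        show l[z]'hzl = _
        rw [this, List.getElem_append_left hz]
    · right
      obtain ⟨z, hz, hz'⟩ := List.mem_iff_getElem.1 hv'
      have e : l = (l1 ++ a :: l2) ++ (b :: l3) := by
        conv_lhs => rw [hl]
        simp
      have hlen : l.length = (l1 ++ a :: l2).length + (b :: l3).length := by
        conv_lhs => rw [e]
        exact List.length_append
      have hlen2 : (l1 ++ a :: l2).length = y := by
        simp only [List.length_append, List.length_cons]
        have : (x : ℕ) < y := h
        omega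
      have hzl : (y : ℕ) + z < l.length := by omega
      refine ⟨⟨y + z, hzl⟩, Or.inr ?_, ?_⟩
      · show (y : ℕ) ≤ y + z
        omega
      · rw [List.get_eq_getElem, ← hz']
        show l[(y : ℕ) + z]'hzl = _
        have : l[(y : ℕ) + z]'hzl = ((l1 ++ a :: l2) ++ (b :: l3))[(y : ℕ) + z]'(by
            rw [← e]; exact hzl) := by
          congr 1
        rw [this, List.getElem_append_right (by omega)]
        congr 1
        omega
  · have e1 : pathWeight c (l1 ++ a :: w :: b :: l3) =
        pathWeight c (l1 ++ [a]) + c s(a, w) + (c s(w, b) + pathWeight c (b :: l3)) := by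
      rw [pw_append]
      rfl
    have e2 : pathWeight c l = pathWeight c (l1 ++ [a]) + pathWeight c (a :: (l2 ++ b :: l3)) := by
      conv_lhs => rw [hl]
      exact pw_split c a _ l1
    have e3 := pw_lower G c M hM b l3 l2 a hcC
    rw [hl2] at e3
    have e4 := hR _ _ h1
    have e5 := hR _ _ h2
    rw [e1, e2]
    omega

/-- Shortcut by an edge. -/
theorem shortcut (G : SimpleGraph V) (c : Sym2 V → ℕ) (M R : ℕ)
    (hM : ∀ u v, G.Adj u v → M ≤ c s(u, v)) (hR : ∀ u v, G.Adj u v → c s(u, v) ≤ R)
    (l : List V) (hc : l.IsChain G.Adj) (hn : l.Nodup) (x y : Fin l.length) (h : x < y)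
    (h1 : G.Adj (l.get x) (l.get y)) :
    ∃ l' : List V, l'.IsChain G.Adj ∧ l'.Nodup ∧ l'.head? = l.head? ∧
      l'.getLast? = l.getLast? ∧ (∀ v ∈ l', v ∈ l) ∧
      pathWeight c l' + M * (y - x) ≤ pathWeight c l + R := by
  obtain ⟨l1, l2, l3, hl, hl1, hl2⟩ := split_two l x y h
  set a := l.get x with ha
  set b := l.get y with hb
  have hc' := hc
  rw [hl] at hc'
  have hcA : (l1 ++ [a]).IsChain G.Adj := by
    have : (l1 ++ a :: (l2 ++ b :: l3)) = (l1 ++ [a]) ++ (l2 ++ b :: l3) := by simp
    rw [this] at hc'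
    exact (List.isChain_append.1 hc').1
  have hcB : (b :: l3).IsChain G.Adj := by
    have : (l1 ++ a :: (l2 ++ b :: l3)) = (l1 ++ a :: l2) ++ (b :: l3) := by simp
    rw [this] at hc'
    exact (List.isChain_append.1 hc').2.1
  have hcC : (a :: (l2 ++ b :: l3)).IsChain G.Adj := (List.isChain_append.1 hc').2.1
  have hsub : (l1 ++ a :: (b :: l3)).Sublist l := by
    rw [hl]
    exact List.Sublist.append_left (List.Sublist.cons_cons a (List.sublist_append_right _ _)) l1
  refine ⟨l1 ++ a :: b :: l3, ?_, List.Nodup.sublist hsub hn, ?_, ?_, fun v hv => hsub.subset hv,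
    ?_⟩
  · have : l1 ++ a :: b :: l3 = (l1 ++ [a]) ++ (b :: l3) := by simp
    rw [this, List.isChain_append]
    refine ⟨hcA, hcB, ?_⟩
    intro u hu v hv
    simp at hu hv
    rw [← hu, ← hv]
    exact h1
  · rw [hl]
    cases l1 <;> simp
  · rw [hl]
    simp [List.getLast?_append, List.getLast?_cons_cons, List.getLast?_cons]
  · have e1 := pw_append c a b l3 l1
    have e2 : pathWeight c l = pathWeight c (l1 ++ [a]) + pathWeight c (a :: (l2 ++ b :: l3)) := by
      conv_lhs => rw [hl]
      exact pw_split c a _ l1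
    have e3 := pw_lower G c M hM b l3 l2 a hcC
    rw [hl2] at e3
    have e4 := hR _ _ h1
    rw [e1, e2]
    omega

end Pool.Agent.DLK
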